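import Pool.Agent.MP_e46b50_co.Defs

set_option autoImplicit false

section
namespace Pool.Agent.MP_e46b50_co.H59

open Finset

section
variable {α : Type} [DecidableEq α]

/-- `f` is a fixed point free involution of `T`. -/
def Pr (T : Finset α) (f : α → α) : Prop := ∀ x ∈ T, f x ∈ T ∧ f x ≠ x ∧ f (f x) = x

/-- the two pairings `f`, `g` connect `T`. -/
def Con (T : Finset α) (f g : α → α) : Prop :=
  ∀ κ : α → Prop, (∀ x ∈ T, κ x → κ (f x)) → (∀ x ∈ T, κ x → κ (g x)) →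
    ∀ x ∈ T, ∀ y ∈ T, κ x → κ y

omit [DecidableEq α] in
theorem Con.symm {T : Finset α} {f g : α → α} (h : Con T f g) : Con T g f :=
  fun κ h1 h2 => h κ h2 h1

omit [DecidableEq α] in
theorem Pr.even {T : Finset α} {f : α → α} (h : Pr T f) : Even T.card := by
  have h1 : ∑ _x ∈ T, (1 : ZMod 2) = 0 :=
    Finset.sum_involution (fun x _ => f x) (fun _ _ => by decide) (fun a ha _ => (h a ha).2.1)
      (fun a ha => (h a ha).1) (fun a ha => (h a ha).2.2)
  rw [Finset.sum_const, nsmul_eq_mul, mul_one] at h1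
  exact (ZMod.natCast_eq_zero_iff_even).1 h1

omit [DecidableEq α] in
theorem Pr.inj {T : Finset α} {f : α → α} (h : Pr T f) {x y : α} (hx : x ∈ T) (hy : y ∈ T)
    (e : f x = f y) : x = y := by
  rw [← (h x hx).2.2, e, (h y hy).2.2]

omit [DecidableEq α] in
theorem Pr.swap {T : Finset α} {f : α → α} (h : Pr T f) {x y : α} (hx : x ∈ T)
    (e : f x = y) : f y = x := by
  rw [← e, (h x hx).2.2]

/-- removing one `g`-edge does not disconnect. -/
theorem cut {T : Finset α} {f g : α → α} (hf : Pr T f) (hg : Pr T g) (hc : Con T f g) {a : α}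
    (ha : a ∈ T) (κ : α → Prop) (h1 : ∀ x ∈ T, κ x → κ (f x))
    (h2 : ∀ x ∈ T, x ≠ a → x ≠ g a → κ x → κ (g x)) : ∀ x ∈ T, ∀ y ∈ T, κ x → κ y := by
  classical
  have key : ∀ b ∈ T, (∀ x ∈ T, x ≠ b → x ≠ g b → κ x → κ (g x)) → κ b → κ (g b) := by
    intro b hb h3 hk
    by_contra hn
    have e1 : Even (T.filter κ).card := Pr.even (f := f) fun x hx => by
      rw [mem_filter] at hx ⊢
      exact ⟨⟨(hf x hx.1).1, h1 x hx.1 hx.2⟩, (hf x hx.1).2⟩
    have e2 : Even ((T.filter κ).erase b).card := Pr.even (f := g) fun x hx => by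
      rw [mem_erase, mem_filter] at hx ⊢
      have hx2 : x ≠ g b := fun e => hn (e ▸ hx.2.2)
      refine ⟨⟨fun e => hx2 (hg.swap hx.2.1 e).symm, (hg x hx.2.1).1,
        h3 x hx.2.1 hx.1 hx2 hx.2.2⟩, (hg x hx.2.1).2⟩
    have hb' : b ∈ T.filter κ := mem_filter.2 ⟨hb, hk⟩
    rw [card_erase_of_mem hb'] at e2
    have := card_pos.2 ⟨b, hb'⟩
    obtain ⟨u, hu⟩ := e1
    obtain ⟨v, hv⟩ := e2
    omega
  refine hc κ h1 fun x hx hk => ?_
  by_cases e : x = a
  · subst e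
    exact key x hx h2 hk
  · by_cases e' : x = g a
    · subst e'
      refine key (g a) hx (fun y hy y1 y2 => h2 y hy ?_ y1) hk
      rwa [(hg a ha).2.2] at y2
    · exact h2 x hx e e' hk

/-- two connected systems are merged along a pair of `g`-edges. -/
theorem merge {X Y : Finset α} {f1 g1 f2 g2 : α → α} (hd : Disjoint X Y) (hf1 : Pr X f1)
    (hg1 : Pr X g1) (hc1 : Con X f1 g1) (hf2 : Pr Y f2) (hg2 : Pr Y g2) (hc2 : Con Y f2 g2)
    {x y : α} (hx : x ∈ X) (hy : y ∈ Y) :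
    ∃ f g : α → α, Pr (X ∪ Y) f ∧ Pr (X ∪ Y) g ∧ Con (X ∪ Y) f g ∧ (∀ z ∈ X, f z = f1 z) ∧
      (∀ z ∈ Y, f z = f2 z) ∧ (∀ z ∈ X, z ≠ x → z ≠ g1 x → g z = g1 z) ∧
      (∀ z ∈ Y, z ≠ y → z ≠ g2 y → g z = g2 z) ∧ g x = y ∧ g y = x ∧ g (g1 x) = g2 y ∧
      g (g2 y) = g1 x := by
  have hn : ∀ z ∈ Y, z ∉ X := fun z hz h => disjoint_left.1 hd h hz
  have hx' := hg1 x hx
  have hy' := hg2 y hy
  have ne : ∀ u ∈ X, ∀ v ∈ Y, u ≠ v := fun u hu v hv e => hn v hv (e ▸ hu)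
  let f : α → α := fun z => if z ∈ X then f1 z else f2 z
  let g : α → α := fun z => if z = x then y else if z = g1 x then g2 y else if z = y then x
    else if z = g2 y then g1 x else if z ∈ X then g1 z else g2 z
  have F1 : ∀ z ∈ X, f z = f1 z := fun z hz => if_pos hz
  have F2 : ∀ z ∈ Y, f z = f2 z := fun z hz => if_neg (hn z hz)
  have G1 : ∀ z ∈ X, z ≠ x → z ≠ g1 x → g z = g1 z := fun z hz h1 h2 => by
    simp only [g, if_neg h1, if_neg h2, if_neg (ne z hz y hy), if_neg (ne z hz _ hy'.1), if_pos hz]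
  have G2 : ∀ z ∈ Y, z ≠ y → z ≠ g2 y → g z = g2 z := fun z hz h1 h2 => by
    simp only [g, if_neg h1, if_neg h2, if_neg (ne x hx z hz).symm,
      if_neg (ne _ hx'.1 z hz).symm, if_neg (hn z hz)]
  have G3 : g x = y := by simp only [g, if_true]
  have G4 : g y = x := by
    simp only [g, if_neg (ne x hx y hy).symm, if_neg (ne _ hx'.1 y hy).symm, if_true]
  have G5 : g (g1 x) = g2 y := by simp only [g, if_neg hx'.2.1, if_true]
  have G6 : g (g2 y) = g1 x := by
    simp only [g, if_neg (ne x hx _ hy'.1).symm, if_neg (ne _ hx'.1 _ hy'.1).symm,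
      if_neg hy'.2.1, if_true]
  refine ⟨f, g, fun z hz => ?_, fun z hz => ?_, fun κ k1 k2 => ?_, F1, F2, G1, G2, G3, G4, G5, G6⟩
  · rcases mem_union.1 hz with hz | hz
    · rw [F1 z hz, F1 _ (hf1 z hz).1]
      exact ⟨mem_union_left _ (hf1 z hz).1, (hf1 z hz).2⟩
    · rw [F2 z hz, F2 _ (hf2 z hz).1]
      exact ⟨mem_union_right _ (hf2 z hz).1, (hf2 z hz).2⟩
  · rcases mem_union.1 hz with hz | hz
    · by_cases e1 : z = x
      · subst e1
        rw [G3, G4]
        exact ⟨mem_union_right _ hy, (ne z hz y hy).symm, rfl⟩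
      by_cases e2 : z = g1 x
      · subst e2
        rw [G5, G6]
        exact ⟨mem_union_right _ hy'.1, (ne _ hz _ hy'.1).symm, rfl⟩
      have h := hg1 z hz
      rw [G1 z hz e1 e2, G1 _ h.1 (fun e => e2 (hg1.swap hz e).symm)
        (fun e => e1 (hg1.inj hz hx e))]
      exact ⟨mem_union_left _ h.1, h.2⟩
    · by_cases e1 : z = y
      · subst e1
        rw [G4, G3]
        exact ⟨mem_union_left _ hx, ne x hx z hz, rfl⟩
      by_cases e2 : z = g2 y
      · subst e2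
        rw [G6, G5]
        exact ⟨mem_union_left _ hx'.1, ne _ hx'.1 _ hz, rfl⟩
      have h := hg2 z hz
      rw [G2 z hz e1 e2, G2 _ h.1 (fun e => e2 (hg2.swap hz e).symm)
        (fun e => e1 (hg2.inj hz hy e))]
      exact ⟨mem_union_right _ h.1, h.2⟩
  · have c1 := cut hf1 hg1 hc1 hx κ (fun z hz h => F1 z hz ▸ k1 z (mem_union_left _ hz) h)
      (fun z hz h1 h2 h => G1 z hz h1 h2 ▸ k2 z (mem_union_left _ hz) h)
    have c2 := cut hf2 hg2 hc2 hy κ (fun z hz h => F2 z hz ▸ k1 z (mem_union_right _ hz) h)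
      (fun z hz h1 h2 h => G2 z hz h1 h2 ▸ k2 z (mem_union_right _ hz) h)
    have c3 : κ x → κ y := fun h => G3 ▸ k2 x (mem_union_left _ hx) h
    have c4 : κ y → κ x := fun h => G4 ▸ k2 y (mem_union_right _ hy) h
    intro u hu v hv h
    rcases mem_union.1 hu with hu | hu <;> rcases mem_union.1 hv with hv | hv
    · exact c1 u hu v hv h
    · exact c2 y hy v hv (c3 (c1 u hu x hx h))
    · exact c1 x hx v hv (c4 (c2 u hu y hy h))
    · exact c2 u hu v hv h

/-- a connected system contains a spanning path between the ends of any `g`-edge. -/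
theorem path (Γ : SimpleGraph α) (f : α → α) (n : ℕ) : ∀ (T : Finset α) (g : α → α) (a b : α),
    T.card = n → Pr T f → Pr T g → Con T f g → a ∈ T → g a = b → (∀ x ∈ T, Γ.Adj x (f x)) →
    (∀ x ∈ T, x ≠ a → x ≠ b → Γ.Adj x (g x)) →
    ∃ p : Γ.Walk a b, p.IsPath ∧ p.length + 1 = n ∧ ∀ x ∈ p.support, x ∈ T := by
  induction n using Nat.strong_induction_on with
  | _ n ih =>
  intro T g a b hn hf hg hc ha hab h1 h2
  have hb : b ∈ T := hab ▸ (hg a ha).1
  have hba : b ≠ a := hab ▸ (hg a ha).2.1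
  have gb : g b = a := hg.swap ha hab
  by_cases e : f a = b
  · have hT : T = {a, b} := by
      refine Subset.antisymm (fun x hx => ?_) (by simp [insert_subset_iff, ha, hb])
      have := hc (fun z => z = a ∨ z = b) (by
        rintro z _ (rfl | rfl)
        · exact Or.inr e
        · exact Or.inl (hf.swap ha e)) (by
        rintro z _ (rfl | rfl)
        · exact Or.inr hab
        · exact Or.inl gb) a ha x hx (Or.inl rfl)
      simpa using this
    refine ⟨.cons (e ▸ h1 a ha) .nil, by simp [hba.symm], ?_, by simp [ha, hb]⟩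
    rw [← hn, hT, card_pair hba.symm]
    rfl
  · obtain ⟨c, hac⟩ : ∃ c, f a = c := ⟨_, rfl⟩
    have hcT : c ∈ T := hac ▸ (hf a ha).1
    have hca : c ≠ a := hac ▸ (hf a ha).2.1
    have hcb : c ≠ b := hac ▸ e
    have fc : f c = a := hf.swap ha hac
    obtain ⟨d, hcd⟩ : ∃ d, g c = d := ⟨_, rfl⟩
    have hdT : d ∈ T := hcd ▸ (hg c hcT).1
    have hdc : d ≠ c := hcd ▸ (hg c hcT).2.1
    have gd : g d = c := hg.swap hcT hcd
    have hda : d ≠ a := fun h => hcb (by rw [← gd, h, hab])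
    have hdb : d ≠ b := fun h => hca (by rw [← gd, h, gb])
    let g' : α → α := fun z => if z = d then b else if z = b then d else g z
    have G1 : g' d = b := if_pos rfl
    have G2 : g' b = d := by simp only [g', if_neg hdb.symm, if_true]
    have G3 : ∀ z, z ≠ d → z ≠ b → g' z = g z := fun z z1 z2 => by
      simp only [g', if_neg z1, if_neg z2]
    have mem : ∀ z, z ∈ (T.erase a).erase c ↔ z ≠ c ∧ z ≠ a ∧ z ∈ T := fun z => by
      simp only [mem_erase]
    have hcard : ((T.erase a).erase c).card + 2 = n := by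
      rw [card_erase_of_mem (mem_erase.2 ⟨hca, hcT⟩), card_erase_of_mem ha, ← hn]
      have : 1 < T.card := one_lt_card.2 ⟨a, ha, c, hcT, hca.symm⟩
      omega
    have fm : ∀ z ∈ T, z ≠ c → z ≠ a → f z ∈ (T.erase a).erase c := fun z hz z1 z2 =>
      (mem _).2 ⟨fun h => z2 (hf.inj hz ha (h.trans hac.symm)),
        fun h => z1 (hf.inj hz hcT (h.trans fc.symm)), (hf z hz).1⟩
    obtain ⟨p, p1, p2, p3⟩ := ih _ (by omega) ((T.erase a).erase c) g' d b rfl
      (fun z hz => by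
        obtain ⟨z1, z2, z3⟩ := (mem z).1 hz
        exact ⟨fm z z3 z1 z2, (hf z z3).2⟩)
      (fun z hz => by
        obtain ⟨z1, z2, z3⟩ := (mem z).1 hz
        by_cases e1 : z = d
        · subst e1
          rw [G1, G2]
          exact ⟨(mem _).2 ⟨hcb.symm, hba, hb⟩, hdb.symm, rfl⟩
        by_cases e2 : z = b
        · subst e2
          rw [G2, G1]
          exact ⟨(mem _).2 ⟨hdc, hda, hdT⟩, hdb, rfl⟩
        rw [G3 z e1 e2, G3 _ (fun h => z1 (hg.inj z3 hcT (h.trans hcd.symm)))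
          (fun h => z2 (hg.inj z3 ha (h.trans hab.symm)))]
        exact ⟨(mem _).2 ⟨fun h => e1 (hg.inj z3 hdT (h.trans gd.symm)),
          fun h => e2 (hg.inj z3 hb (h.trans gb.symm)), (hg z z3).1⟩, (hg z z3).2⟩)
      (fun κ k1 k2 => by
        have hb' : b ∈ (T.erase a).erase c := (mem _).2 ⟨hcb.symm, hba, hb⟩
        have hd' : d ∈ (T.erase a).erase c := (mem _).2 ⟨hdc, hda, hdT⟩
        have kb : κ b → κ d := fun h => G2 ▸ k2 b hb' h
        have kd : κ d → κ b := fun h => G1 ▸ k2 d hd' h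
        have := hc (fun z => (z = a ∧ κ b) ∨ (z = c ∧ κ b) ∨ (z ≠ a ∧ z ≠ c ∧ κ z))
          (by
            rintro z hz (⟨rfl, h⟩ | ⟨rfl, h⟩ | ⟨z1, z2, h⟩)
            · exact Or.inr (Or.inl ⟨hac, h⟩)
            · exact Or.inl ⟨fc, h⟩
            · have := (mem _).1 (fm z hz z2 z1)
              exact Or.inr (Or.inr ⟨this.2.1, this.1, k1 z ((mem _).2 ⟨z2, z1, hz⟩) h⟩))
          (by
            rintro z hz (⟨rfl, h⟩ | ⟨rfl, h⟩ | ⟨z1, z2, h⟩)
            · rw [hab]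
              exact Or.inr (Or.inr ⟨hba, hcb.symm, h⟩)
            · rw [hcd]
              exact Or.inr (Or.inr ⟨hda, hdc, kb h⟩)
            · by_cases e1 : z = d
              · subst e1
                exact Or.inr (Or.inl ⟨gd, kd h⟩)
              by_cases e2 : z = b
              · subst e2
                exact Or.inl ⟨gb, h⟩
              exact Or.inr (Or.inr ⟨fun h => e2 (hg.inj hz hb (h.trans gb.symm)),
                fun h => e1 (hg.inj hz hdT (h.trans gd.symm)),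
                G3 z e1 e2 ▸ k2 z ((mem _).2 ⟨z2, z1, hz⟩) h⟩))
        intro x hx y hy h
        obtain ⟨x1, x2, x3⟩ := (mem x).1 hx
        obtain ⟨y1, y2, y3⟩ := (mem y).1 hy
        rcases this x x3 y y3 (Or.inr (Or.inr ⟨x2, x1, h⟩)) with h | h | h
        · exact absurd h.1 y2
        · exact absurd h.1 y1
        · exact h.2.2)
      ((mem _).2 ⟨hdc, hda, hdT⟩) G1 (fun z hz => h1 z ((mem z).1 hz).2.2)
      (fun z hz z1 z2 => by
        rw [G3 z z1 z2]
        exact h2 z ((mem z).1 hz).2.2 ((mem z).1 hz).2.1 z2)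
    refine ⟨.cons (hac ▸ h1 a ha) (.cons (hcd ▸ h2 c hcT hca hcb) p), ?_, ?_, ?_⟩
    · rw [SimpleGraph.Walk.cons_isPath_iff, SimpleGraph.Walk.cons_isPath_iff]
      refine ⟨⟨p1, fun h => ((mem _).1 (p3 _ h)).1 rfl⟩, ?_⟩
      rw [SimpleGraph.Walk.support_cons, List.mem_cons]
      rintro (h | h)
      · exact hca h.symm
      · exact ((mem _).1 (p3 _ h)).2.1 rfl
    · simp only [SimpleGraph.Walk.length_cons]
      omega
    · intro x hx
      simp only [SimpleGraph.Walk.support_cons, List.mem_cons] at hx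
      rcases hx with rfl | rfl | hx
      · exact ha
      · exact hcT
      · exact ((mem _).1 (p3 _ hx)).2.2

/-- a set all of whose colour classes are even is paired inside the classes. -/
theorem pair_in {γ : Type} [DecidableEq γ] (κ : α → γ) (n : ℕ) : ∀ A : Finset α, A.card = n →
    (∀ c, Even (A.filter fun z => κ z = c).card) → ∃ σ, Pr A σ ∧ ∀ x ∈ A, κ (σ x) = κ x := by
  induction n using Nat.strong_induction_on with
  | _ n ih =>
  intro A hn he
  rcases A.eq_empty_or_nonempty with rfl | ⟨a, ha⟩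
  · exact ⟨id, by simp [Pr], by simp⟩
  have h1 : 1 < (A.filter fun z => κ z = κ a).card := by
    have : 0 < (A.filter fun z => κ z = κ a).card := card_pos.2 ⟨a, mem_filter.2 ⟨ha, rfl⟩⟩
    obtain ⟨u, hu⟩ := he (κ a)
    omega
  obtain ⟨c, hc0, hca⟩ := exists_mem_ne h1 a
  obtain ⟨hc, hk⟩ := mem_filter.1 hc0
  have mem : ∀ z, z ∈ (A.erase a).erase c ↔ z ≠ c ∧ z ≠ a ∧ z ∈ A := fun z => by
    simp only [mem_erase]
  have hlt : ((A.erase a).erase c).card < n := by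
    have := card_erase_le (s := A.erase a) (a := c)
    have := card_erase_lt_of_mem ha
    omega
  obtain ⟨σ, s1, s2⟩ := ih _ hlt ((A.erase a).erase c) rfl (fun e => by
    rw [filter_erase, filter_erase]
    by_cases h : κ a = e
    · have m1 : a ∈ A.filter fun z => κ z = e := mem_filter.2 ⟨ha, h⟩
      have m2 : c ∈ (A.filter fun z => κ z = e).erase a :=
        mem_erase.2 ⟨hca, mem_filter.2 ⟨hc, hk.trans h⟩⟩
      rw [card_erase_of_mem m2, card_erase_of_mem m1]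
      obtain ⟨u, hu⟩ := he e
      have := card_pos.2 ⟨a, m1⟩
      exact ⟨u - 1, by omega⟩
    · rw [erase_eq_of_notMem (s := A.filter fun z => κ z = e) (a := a) (by simp [h]),
        erase_eq_of_notMem (by simp [hk, h])]
      exact he e)
  let τ : α → α := fun z => if z = a then c else if z = c then a else σ z
  have T1 : τ a = c := if_pos rfl
  have T2 : τ c = a := by simp only [τ, if_neg hca, if_true]
  have T3 : ∀ z, z ≠ a → z ≠ c → τ z = σ z := fun z z1 z2 => by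
    simp only [τ, if_neg z1, if_neg z2]
  refine ⟨τ, fun z hz => ?_, fun z hz => ?_⟩
  · by_cases e1 : z = a
    · subst e1
      rw [T1, T2]
      exact ⟨hc, hca, rfl⟩
    by_cases e2 : z = c
    · subst e2
      rw [T2, T1]
      exact ⟨ha, hca.symm, rfl⟩
    have h := s1 z ((mem z).2 ⟨e2, e1, hz⟩)
    have h' := (mem _).1 h.1
    rw [T3 z e1 e2, T3 _ h'.2.1 h'.1]
    exact ⟨h'.2.2, h.2⟩
  · by_cases e1 : z = a
    · subst e1
      rw [T1, hk]
    by_cases e2 : z = c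
    · subst e2
      rw [T2, hk]
    rw [T3 z e1 e2]
    exact s2 z ((mem z).2 ⟨e2, e1, hz⟩)

/-- every pairing is completed to a connected system by a pairing along `E`. -/
def PH (E : α → α → Prop) (X : Finset α) : Prop :=
  ∀ p, Pr X p → ∃ r, Pr X r ∧ (∀ x ∈ X, E x (r x)) ∧ Con X r p

/-- a pairing inside `X` patched on the points whose partner leaves `X`. -/
theorem patch {X W : Finset α} {p σ : α → α} (hXW : X ⊆ W) (hp : Pr W p)
    (hσ : Pr (X.filter fun z => p z ∉ X) σ) : Pr X fun z => if p z ∈ X then p z else σ z := by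
  intro z hz
  by_cases h : p z ∈ X
  · have := hp z (hXW hz)
    simp only [if_pos h, this.2.2, if_pos hz]
    exact ⟨h, this.2.1, trivial⟩
  · have := hσ z (mem_filter.2 ⟨hz, h⟩)
    have h2 := mem_filter.1 this.1
    simp only [if_neg h, if_neg h2.2]
    exact ⟨h2.1, this.2⟩

theorem even_out {X W : Finset α} {p : α → α} (hXW : X ⊆ W) (hp : Pr W p) (K : α → Prop)
    [DecidablePred K] (hK : ∀ z ∈ X, p z ∈ X → K z → K (p z)) (he : Even (X.filter K).card) :
    Even ((X.filter fun z => p z ∉ X).filter K).card := by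
  have e1 : Even ((X.filter K).filter fun z => p z ∈ X).card := Pr.even (f := p) fun z hz => by
    simp only [mem_filter] at hz ⊢
    have := hp z (hXW hz.1.1)
    exact ⟨⟨⟨hz.2, hK z hz.1.1 hz.2 hz.1.2⟩, by rw [this.2.2]; exact hz.1.1⟩, this.2⟩
  have e2 := card_filter_add_card_filter_not (s := X.filter K) (fun z => p z ∈ X)
  rw [filter_comm]
  obtain ⟨u, hu⟩ := e1
  obtain ⟨v, hv⟩ := he
  exact ⟨v - u, by omega⟩

/-- the inductive step of Fink's argument. -/
theorem fink_step {E : α → α → Prop} {X Y : Finset α} (hd : Disjoint X Y) (hX : PH E X)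
    (hY : PH E Y) (he : Even X.card) {p : α → α} (hp : Pr (X ∪ Y) p) {a : α} (ha : a ∈ X)
    (ha' : p a ∉ X) : ∃ r, Pr (X ∪ Y) r ∧ (∀ x ∈ X ∪ Y, E x (r x)) ∧ Con (X ∪ Y) r p := by
  classical
  have hn : ∀ z ∈ Y, z ∉ X := fun z hz h => disjoint_left.1 hd h hz
  have sX : X ⊆ X ∪ Y := subset_union_left
  have sY : Y ⊆ X ∪ Y := subset_union_right
  have pp : ∀ z ∈ X ∪ Y, p (p z) = z := fun z hz => (hp z hz).2.2
  obtain ⟨s0, hs0, -⟩ := pair_in (fun _ : α => ()) _ (X.filter fun z => p z ∉ X) rfl (fun c => by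
    refine even_out sX hp _ (fun _ _ _ h => h) ?_
    simpa using he)
  obtain ⟨r0, r1, r2, r3⟩ := hX _ (patch sX hp hs0)
  let H : α → α → Prop := fun u v => u ∈ X ∧ (v = r0 u ∨ (v = p u ∧ v ∈ X))
  obtain ⟨σ, hσ, hκ⟩ := pair_in (Quot.mk H) _ (X.filter fun z => p z ∉ X) rfl (fun c => by
    refine even_out sX hp _ (fun z hz hz' h => ?_) (Pr.even (f := r0) fun z hz => ?_)
    · exact (Quot.sound (r := H) ⟨hz, Or.inr ⟨rfl, hz'⟩⟩).symm.trans h
    · rw [mem_filter] at hz ⊢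
      exact ⟨⟨(r1 z hz.1).1, (Quot.sound (r := H) ⟨hz.1, Or.inl rfl⟩).symm.trans hz.2⟩,
        (r1 z hz.1).2⟩)
  have out : ∀ z ∈ Y, p z ∉ Y → p z ∈ X.filter fun z => p z ∉ X := fun z hz h => by
    refine mem_filter.2 ⟨(mem_union.1 (hp z (sY hz)).1).resolve_right h, ?_⟩
    rw [pp z (sY hz)]
    exact hn z hz
  have back : ∀ z ∈ X.filter (fun z => p z ∉ X), p z ∈ Y.filter fun z => p z ∉ Y := fun z hz => by
    obtain ⟨z1, z2⟩ := mem_filter.1 hz
    refine mem_filter.2 ⟨(mem_union.1 (hp z (sX z1)).1).resolve_left z2, ?_⟩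
    rw [pp z (sX z1)]
    exact fun h => hn z h z1
  have hs1 : Pr (Y.filter fun z => p z ∉ Y) fun z => p (σ (p z)) := fun z hz => by
    obtain ⟨z1, z2⟩ := mem_filter.1 hz
    have h1 := hσ _ (out z z1 z2)
    have h2 := sX (mem_filter.1 h1.1).1
    refine ⟨back _ h1.1, fun e => h1.2.1 ?_, ?_⟩
    · exact (hp.swap h2 e).symm
    · show p (σ (p (p (σ (p z))))) = z
      rw [pp _ h2, h1.2.2, pp z (sY z1)]
  obtain ⟨t0, t1, t2, t3⟩ := hY _ (patch sY hp hs1)
  let r : α → α := fun z => if z ∈ X then r0 z else t0 z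
  have R1 : ∀ z ∈ X, r z = r0 z := fun z hz => if_pos hz
  have R2 : ∀ z ∈ Y, r z = t0 z := fun z hz => if_neg (hn z hz)
  refine ⟨r, fun z hz => ?_, fun z hz => ?_, fun κ k1 k2 => ?_⟩
  · rcases mem_union.1 hz with hz | hz
    · rw [R1 z hz, R1 _ (r1 z hz).1]
      exact ⟨mem_union_left _ (r1 z hz).1, (r1 z hz).2⟩
    · rw [R2 z hz, R2 _ (t1 z hz).1]
      exact ⟨mem_union_right _ (t1 z hz).1, (t1 z hz).2⟩
  · rcases mem_union.1 hz with hz | hz
    · rw [R1 z hz]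
      exact r2 z hz
    · rw [R2 z hz]
      exact t2 z hz
  · have inv : ∀ u v, H u v → κ u = κ v := by
      rintro u v ⟨hu, rfl | ⟨rfl, hv⟩⟩
      · refine propext ⟨fun h => R1 u hu ▸ k1 u (sX hu) h, fun h => ?_⟩
        have := k1 _ (sX (r1 u hu).1) h
        rwa [R1 _ (r1 u hu).1, (r1 u hu).2.2] at this
      · refine propext ⟨k2 u (sX hu), fun h => ?_⟩
        have := k2 _ (sX hv) h
        rwa [pp u (sX hu)] at this
    have cl : ∀ u v, Quot.mk H u = Quot.mk H v → κ u = κ v := fun u v h =>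
      congrArg (Quot.lift κ inv) h
    have cY := t3 κ (fun z hz h => R2 z hz ▸ k1 z (sY hz) h) (fun z hz h => by
      by_cases e : p z ∈ Y
      · simp only [if_pos e]
        exact k2 z (sY hz) h
      · simp only [if_neg e]
        have o := out z hz e
        refine k2 _ (sX (mem_filter.1 (hσ _ o).1).1) ?_
        rw [cl _ _ (hκ _ o)]
        exact k2 z (sY hz) h)
    have toY : ∀ x ∈ X, ∃ y ∈ Y, (κ x ↔ κ y) := fun x hx => by
      have : ∃ t ∈ X.filter (fun z => p z ∉ X), Quot.mk H t = Quot.mk H x := by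
        by_contra hno
        have := r3 (fun z => Quot.mk H z = Quot.mk H x)
          (fun z hz h => (Quot.sound (r := H) ⟨hz, Or.inl rfl⟩).symm.trans h)
          (fun z hz h => by
            by_cases e : p z ∈ X
            · simp only [if_pos e]
              exact (Quot.sound (r := H) ⟨hz, Or.inr ⟨rfl, e⟩⟩).symm.trans h
            · exact absurd ⟨z, mem_filter.2 ⟨hz, e⟩, h⟩ hno) x hx a ha rfl
        exact hno ⟨a, mem_filter.2 ⟨ha, ha'⟩, this⟩
      obtain ⟨t, ht, e⟩ := this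
      have ht' := sX (mem_filter.1 ht).1
      refine ⟨p t, (mem_filter.1 (back t ht)).1, ?_⟩
      rw [← cl _ _ e]
      refine ⟨k2 t ht', fun h => ?_⟩
      have := k2 _ (hp t ht').1 h
      rwa [pp t ht'] at this
    have all : ∀ x ∈ X ∪ Y, ∃ y ∈ Y, (κ x ↔ κ y) := fun x hx => by
      rcases mem_union.1 hx with hx | hx
      · exact toY x hx
      · exact ⟨x, hx, Iff.rfl⟩
    intro u hu v hv h
    obtain ⟨u', u1, u2⟩ := all u hu
    obtain ⟨v', v1, v2⟩ := all v hv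
    exact v2.2 (cY u' u1 v' v1 (u2.1 h))

end

end Pool.Agent.MP_e46b50_co.H59

end

section
namespace Pool.Agent.MP_e46b50_co.H59

open Finset

section
variable {V : Type} [DecidableEq V]

/-- toggle the vertex `z`. -/
def fl (z : V) (X : Finset V) : Finset V := symmDiff X {z}

theorem mem_fl {z v : V} {X : Finset V} : v ∈ fl z X ↔ (v ∈ X ↔ v ≠ z) := by
  simp only [fl, mem_symmDiff, mem_singleton]
  tauto

theorem fl_fl (z : V) (X : Finset V) : fl z (fl z X) = X := by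
  ext v
  simp only [mem_fl]
  tauto

theorem fl_ne (z : V) (X : Finset V) : fl z X ≠ X := fun h => by
  have : z ∈ fl z X ↔ z ∈ X := by rw [h]
  rw [mem_fl] at this
  tauto

theorem fl_comm (z w : V) (X : Finset V) : fl z (fl w X) = fl w (fl z X) := by
  ext v
  simp only [mem_fl]
  tauto

theorem fl_insert {z : V} {X : Finset V} (h : z ∉ X) : fl z X = insert z X := by
  ext v
  simp only [mem_fl, mem_insert]
  by_cases e : v = z
  · subst e
    tauto
  · tauto

theorem fl_erase {z : V} {X : Finset V} (h : z ∈ X) : fl z X = X.erase z := by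
  ext v
  simp only [mem_fl, mem_erase]
  by_cases e : v = z
  · subst e
    tauto
  · tauto

/-- `Y` arises from `X` by toggling one vertex. -/
def Fl (X Y : Finset V) : Prop := ∃ z, Y = fl z X

theorem Fl.symm {X Y : Finset V} (h : Fl X Y) : Fl Y X := by
  obtain ⟨z, rfl⟩ := h
  exact ⟨z, (fl_fl z X).symm⟩

theorem fl_mem {A C X : Finset V} {z : V} (hX : X ∈ Icc A C) (hz : z ∈ C \ A) :
    fl z X ∈ Icc A C := by
  rw [mem_sdiff] at hz
  rw [mem_Icc] at hX ⊢
  refine ⟨fun v hv => mem_fl.2 ⟨fun _ e => hz.2 (e ▸ hv), fun _ => hX.1 hv⟩, fun v hv => ?_⟩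
  by_cases e : v = z
  · exact e ▸ hz.1
  · exact hX.2 ((mem_fl.1 hv).2 e)

theorem dir_mem {A C X : Finset V} {z : V} (hX : X ∈ Icc A C) (h : fl z X ∈ Icc A C) :
    z ∈ C \ A := by
  rw [mem_Icc] at hX h
  rw [mem_sdiff]
  constructor
  · by_cases e : z ∈ X
    · exact hX.2 e
    · exact h.2 (mem_fl.2 (by tauto))
  · intro e
    have := mem_fl.1 (h.1 e)
    exact this.1 (hX.1 e) rfl

theorem card_cube {A C : Finset V} (h : A ⊆ C) : (Icc A C).card = 2 ^ (C \ A).card := by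
  rw [card_Icc_finset h, card_sdiff_of_subset h]

theorem halves {A C : Finset V} (h : A ⊆ C) {z : V} (hz : z ∈ C \ A) :
    insert z A ⊆ C ∧ A ⊆ C.erase z ∧ C \ insert z A = (C \ A).erase z ∧
    C.erase z \ A = (C \ A).erase z ∧ Icc A (C.erase z) ∪ Icc (insert z A) C = Icc A C ∧
    Disjoint (Icc A (C.erase z)) (Icc (insert z A) C) ∧
    (∀ u ∈ Icc A (C.erase z), fl z u ∈ Icc (insert z A) C) ∧
    (∀ u ∈ Icc (insert z A) C, fl z u ∈ Icc A (C.erase z)) := by
  have hz' := mem_sdiff.1 hz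
  refine ⟨insert_subset hz'.1 h, fun v hv => mem_erase.2 ⟨fun e => hz'.2 (e ▸ hv), h hv⟩, ?_, ?_,
    ?_, ?_, ?_, ?_⟩
  · ext v
    simp only [mem_sdiff, mem_insert, mem_erase]
    tauto
  · ext v
    simp only [mem_sdiff, mem_erase]
    tauto
  · ext X
    simp only [mem_union, mem_Icc, le_eq_subset, subset_erase, insert_subset_iff]
    tauto
  · rw [disjoint_left]
    intro X
    simp only [mem_Icc, le_eq_subset, subset_erase, insert_subset_iff]
    tauto
  · intro u hu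
    simp only [mem_Icc, le_eq_subset, subset_erase] at hu
    rw [fl_insert hu.2.2, mem_Icc]
    exact ⟨insert_subset_insert _ hu.1, insert_subset hz'.1 hu.2.1⟩
  · intro u hu
    simp only [mem_Icc, le_eq_subset, insert_subset_iff] at hu
    rw [fl_erase hu.1.1, mem_Icc]
    exact ⟨fun v hv => mem_erase.2 ⟨fun e => hz'.2 (e ▸ hv), hu.1.2 hv⟩, erase_subset_erase _ hu.2⟩

/-- Fink's theorem in connectivity form. -/
theorem fink (n : ℕ) : ∀ A C : Finset V, A ⊆ C → (C \ A).card = n + 1 → PH Fl (Icc A C) := by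
  induction n with
  | zero =>
    intro A C h hc p hp
    obtain ⟨z, hz⟩ := card_eq_one.1 hc
    have hz' : z ∈ C \ A := hz ▸ mem_singleton_self z
    refine ⟨fl z, fun x hx => ⟨fl_mem hx hz', fl_ne _ _, fl_fl _ _⟩, fun x _ => ⟨z, rfl⟩,
      fun κ k1 _ x hx y hy hk => ?_⟩
    by_cases e : y = x
    · exact e ▸ hk
    · have h2 : (Icc A C).card = 2 := by rw [card_cube h, hc]; rfl
      have : ({x, fl z x} : Finset (Finset V)) = Icc A C := by
        refine eq_of_subset_of_card_le (insert_subset hx (singleton_subset_iff.2 (fl_mem hx hz'))) ?_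
        rw [card_pair (fl_ne z x).symm, h2]
      rw [← this, mem_insert, mem_singleton] at hy
      exact (hy.resolve_left e) ▸ k1 x hx hk
  | succ n ih =>
    intro A C h hc p hp
    have hA : A ∈ Icc A C := mem_Icc.2 ⟨le_rfl, h⟩
    have h1 := hp A hA
    have h2 := mem_Icc.1 h1.1
    obtain ⟨z, z1, z2⟩ := exists_of_ssubset (Finset.ssubset_iff_subset_ne.2 ⟨h2.1, h1.2.1.symm⟩)
    have hz : z ∈ C \ A := mem_sdiff.2 ⟨h2.2 z1, z2⟩
    obtain ⟨a1, a2, a3, a4, a5, a6, -, -⟩ := halves h hz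
    have hc' : ((C \ A).erase z).card = n + 1 := by rw [card_erase_of_mem hz, hc]; rfl
    rw [← a5] at hp ⊢
    refine fink_step a6 (ih _ _ a2 (a4 ▸ hc')) (ih _ _ a1 (a3 ▸ hc')) ?_ hp
      (mem_Icc.2 ⟨le_rfl, a2⟩) fun hm => ?_
    · rw [card_cube a2, a4, hc', pow_succ]
      exact even_two.mul_left _
    · exact (mem_erase.1 ((mem_Icc.1 hm).2 z1)).1 rfl

/-- a connected system of two pairings by toggles. -/
def St (T : Finset (Finset V)) (f g : Finset V → Finset V) : Prop :=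
  Pr T f ∧ Pr T g ∧ Con T f g ∧ (∀ x ∈ T, Fl x (f x)) ∧ ∀ x ∈ T, Fl x (g x)

theorem St.symm {T : Finset (Finset V)} {f g : Finset V → Finset V} (h : St T f g) : St T g f :=
  ⟨h.2.1, h.1, h.2.2.1.symm, h.2.2.2.2, h.2.2.2.1⟩

theorem St.merge {X Y : Finset (Finset V)} {f1 g1 f2 g2 : Finset V → Finset V} (h1 : St X f1 g1)
    (h2 : St Y f2 g2) (hd : Disjoint X Y) {x y : Finset V} (hx : x ∈ X) (hy : y ∈ Y) (e1 : Fl x y)
    (e2 : Fl (g1 x) (g2 y)) : ∃ f g, St (X ∪ Y) f g ∧ (∀ z ∈ X, f z = f1 z) ∧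
      (∀ z ∈ X, z ≠ x → z ≠ g1 x → g z = g1 z) ∧ ∀ z ∈ Y, z ≠ y → z ≠ g2 y → g z = g2 z := by
  obtain ⟨f, g, a1, a2, a3, a4, a5, a6, a7, a8, a9, a10, a11⟩ :=
    H59.merge hd h1.1 h1.2.1 h1.2.2.1 h2.1 h2.2.1 h2.2.2.1 hx hy
  refine ⟨f, g, ⟨a1, a2, a3, fun z hz => ?_, fun z hz => ?_⟩, a4, a6, a7⟩
  · rcases mem_union.1 hz with hz | hz
    · rw [a4 z hz]
      exact h1.2.2.2.1 z hz
    · rw [a5 z hz]
      exact h2.2.2.2.1 z hz
  · rcases mem_union.1 hz with hz | hz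
    · by_cases b1 : z = x
      · rw [b1, a8]
        exact e1
      by_cases b2 : z = g1 x
      · rw [b2, a10]
        exact e2
      rw [a6 z hz b1 b2]
      exact h1.2.2.2.2 z hz
    · by_cases b1 : z = y
      · rw [b1, a9]
        exact e1.symm
      by_cases b2 : z = g2 y
      · rw [b2, a11]
        exact e2.symm
      rw [a7 z hz b1 b2]
      exact h2.2.2.2.2 z hz

/-- every edge of a cube lies on closed systems of all even sizes. -/
theorem bip (n : ℕ) : ∀ A C : Finset V, A ⊆ C → (C \ A).card = n + 1 → ∀ x ∈ Icc A C,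
    ∀ t ∈ C \ A, ∀ j, 1 ≤ j → j ≤ 2 ^ n →
    ∃ Y ⊆ Icc A C, Y.card = 2 * j ∧ x ∈ Y ∧ ∃ f g, St Y f g ∧ g x = fl t x := by
  induction n with
  | zero =>
    intro A C h hc x hx t ht j j1 j2
    have hp : Pr ({x, fl t x} : Finset (Finset V)) (fl t) := fun z hz => by
      refine ⟨?_, fl_ne _ _, fl_fl _ _⟩
      rw [mem_insert, mem_singleton] at hz ⊢
      rcases hz with rfl | rfl
      · exact Or.inr rfl
      · exact Or.inl (fl_fl _ _)
    refine ⟨{x, fl t x}, insert_subset hx (singleton_subset_iff.2 (fl_mem hx ht)), ?_,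
      mem_insert_self _ _, fl t, fl t, ⟨hp, hp, fun κ k1 _ u hu v hv hk => ?_,
        fun z _ => ⟨t, rfl⟩, fun z _ => ⟨t, rfl⟩⟩, rfl⟩
    · rw [card_pair (fl_ne t x).symm]
      omega
    · have h1 := k1 u hu hk
      rw [mem_insert, mem_singleton] at hu hv
      rcases hu with rfl | rfl <;> rcases hv with rfl | rfl
      · exact hk
      · exact h1
      · rwa [fl_fl] at h1
      · exact hk
  | succ n ih =>
    intro A C h hc x hx t ht j j1 j2
    obtain ⟨z, hz, hzt⟩ := exists_mem_ne (s := C \ A) (by omega) t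
    have hc' : ((C \ A).erase z).card = n + 1 := by rw [card_erase_of_mem hz, hc]; rfl
    have ht' : t ∈ (C \ A).erase z := mem_erase.2 ⟨hzt.symm, ht⟩
    have main : ∀ A1 C1 A2 C2 : Finset V, A1 ⊆ C1 → A2 ⊆ C2 → C1 \ A1 = (C \ A).erase z →
        C2 \ A2 = (C \ A).erase z → Icc A1 C1 ⊆ Icc A C → Icc A2 C2 ⊆ Icc A C →
        Disjoint (Icc A1 C1) (Icc A2 C2) → (∀ u ∈ Icc A1 C1, fl z u ∈ Icc A2 C2) →
        x ∈ Icc A1 C1 →
        ∃ Y ⊆ Icc A C, Y.card = 2 * j ∧ x ∈ Y ∧ ∃ f g, St Y f g ∧ g x = fl t x := by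
      intro A1 C1 A2 C2 b1 b2 b3 b4 b5 b6 b7 b8 b9
      by_cases hj : j ≤ 2 ^ n
      · obtain ⟨Y, y1, y2⟩ := ih A1 C1 b1 (b3 ▸ hc') x b9 t (b3 ▸ ht') j j1 hj
        exact ⟨Y, y1.trans b5, y2⟩
      obtain ⟨Y, y1, y2, y3, f1, g1, s1, e1⟩ :=
        ih A1 C1 b1 (b3 ▸ hc') x b9 t (b3 ▸ ht') (2 ^ n) Nat.one_le_two_pow le_rfl
      obtain ⟨β, hβ⟩ := s1.2.2.2.1 x y3
      have hβ' : β ∈ C1 \ A1 := dir_mem b9 (hβ ▸ y1 (s1.1 x y3).1)
      obtain ⟨Z, z1, z2, z3, f2, g2, s2, e2⟩ := ih A2 C2 b2 (b4 ▸ hc') (fl z x) (b8 x b9) β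
        (b4 ▸ b3 ▸ hβ') (j - 2 ^ n) (by omega) (by rw [pow_succ] at j2; omega)
      have hd : Disjoint Y Z := b7.mono y1 z1
      obtain ⟨f, g, s, c1, -, -⟩ := s1.symm.merge s2 hd y3 z3 ⟨z, rfl⟩
        ⟨z, by rw [e2, hβ, fl_comm]⟩
      refine ⟨Y ∪ Z, union_subset (y1.trans b5) (z1.trans b6), ?_, mem_union_left _ y3, g, f,
        s.symm, (c1 x y3).trans e1⟩
      rw [card_union_of_disjoint hd]
      omega
    obtain ⟨a1, a2, a3, a4, a5, a6, a7, a8⟩ := halves h hz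
    have hx' := hx
    rw [← a5] at hx'
    rcases mem_union.1 hx' with hx' | hx'
    · exact main _ _ _ _ a2 a1 a4 a3 (a5 ▸ subset_union_left) (a5 ▸ subset_union_right) a6 a7 hx'
    · exact main _ _ _ _ a1 a2 a3 a4 (a5 ▸ subset_union_right) (a5 ▸ subset_union_left) a6.symm
        a8 hx'

/-- a perfect matching of a cube with one prescribed edge and distinct edges in large subcubes. -/
theorem reserve {ι : Type} [DecidableEq ι] {A C a : Finset V} {t : V} (ha : a ∈ Icc A C)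
    (ht : t ∈ C \ A) (lo hi : ι → Finset V) (k : ℕ) (J : Finset ι) : J.card ≤ k →
    (∀ i ∈ J, lo i ⊆ hi i ∧ Icc (lo i) (hi i) ⊆ Icc A C ∧ 8 * k + 4 < 2 ^ (hi i \ lo i).card) →
    ∃ (g : Finset V → Finset V) (ρ : ι → Finset V) (U : Finset (Finset V)),
      Pr (Icc A C) g ∧ (∀ x ∈ Icc A C, Fl x (g x)) ∧ g a = fl t a ∧
      (∀ i ∈ J, ρ i ∈ Icc (lo i) (hi i) ∧ g (ρ i) ∈ Icc (lo i) (hi i) ∧ ρ i ≠ a ∧ ρ i ≠ fl t a) ∧
      (∀ i ∈ J, ∀ j ∈ J, i ≠ j → ρ i ≠ ρ j ∧ ρ i ≠ g (ρ j)) ∧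
      U.card ≤ 4 * J.card + 2 ∧ a ∈ U ∧ (∀ x ∈ U, fl t x ∈ U) ∧ (∀ x, x ∉ U → g x = fl t x) ∧
      ∀ i ∈ J, ρ i ∈ U ∧ g (ρ i) ∈ U := by
  induction J using Finset.induction_on with
  | empty =>
    intro _ _
    refine ⟨fl t, fun _ => a, {a, fl t a}, fun x hx => ⟨fl_mem hx ht, fl_ne _ _, fl_fl _ _⟩,
      fun x _ => ⟨t, rfl⟩, rfl, by simp, by simp, card_le_two, by simp, ?_, fun _ _ => rfl, by simp⟩
    simp [fl_fl]
  | insert i J hi' ih =>
    intro hk hJ
    rw [card_insert_of_notMem hi'] at hk ⊢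
    obtain ⟨g, ρ, U, g1, g2, g3, g4, g5, u1, u2, u3, u4, u5⟩ :=
      ih (by omega) fun j hj => hJ j (mem_insert_of_mem hj)
    obtain ⟨i1, i2, i3⟩ := hJ i (mem_insert_self _ _)
    obtain ⟨β, hβ⟩ : (hi i \ lo i).Nonempty := by
      rw [← card_pos]
      by_contra h0
      rw [show (hi i \ lo i).card = 0 by omega] at i3
      omega
    obtain ⟨x, hx, hxU⟩ : ∃ x ∈ Icc (lo i) (hi i), x ∉ U ∪ U.image (fl β) := by
      refine exists_mem_notMem_of_card_lt_card ?_
      have := card_union_le U (U.image (fl β))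
      have := card_image_le (s := U) (f := fl β)
      rw [card_cube i1]
      omega
    have x1 : x ∉ U := fun h => hxU (mem_union_left _ h)
    have x2 : fl β x ∉ U := fun h => hxU (mem_union_right _ (mem_image.2 ⟨_, h, fl_fl _ _⟩))
    have hxβ : fl β x ∈ Icc (lo i) (hi i) := fl_mem hx hβ
    have hβ' : β ∈ C \ A := dir_mem (i2 hx) (i2 hxβ)
    have nU : ∀ y, y ∉ U → fl t y ∉ U := fun y hy h => hy (fl_fl t y ▸ u3 _ h)
    let N : Finset (Finset V) := {x, fl β x, fl t x, fl t (fl β x)}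
    have mN : ∀ y, y ∈ N ↔ y = x ∨ y = fl β x ∨ y = fl t x ∨ y = fl t (fl β x) := fun y => by
      simp only [N, mem_insert, mem_singleton]
    have N1 : ∀ y ∈ N, y ∉ U := fun y hy => by
      rcases (mN y).1 hy with rfl | rfl | rfl | rfl
      exacts [x1, x2, nU _ x1, nU _ x2]
    have N2 : ∀ y ∈ N, fl β y ∈ N := fun y hy => by
      rcases (mN y).1 hy with rfl | rfl | rfl | rfl <;> rw [mN]
      · exact Or.inr (Or.inl rfl)
      · exact Or.inl (fl_fl _ _)
      · exact Or.inr (Or.inr (Or.inr (fl_comm _ _ _)))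
      · exact Or.inr (Or.inr (Or.inl (by rw [fl_comm, fl_fl])))
    have N3 : ∀ y ∈ N, fl t y ∈ N := fun y hy => by
      rcases (mN y).1 hy with rfl | rfl | rfl | rfl <;> rw [mN]
      · exact Or.inr (Or.inr (Or.inl rfl))
      · exact Or.inr (Or.inr (Or.inr rfl))
      · exact Or.inl (fl_fl _ _)
      · exact Or.inr (Or.inl (fl_fl _ _))
    have xN : x ∈ N := (mN x).2 (Or.inl rfl)
    let g' : Finset V → Finset V := fun y => if y ∈ N then fl β y else g y
    have G1 : ∀ y ∈ N, g' y = fl β y := fun y hy => if_pos hy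
    have G2 : ∀ y, y ∉ N → g' y = g y := fun y hy => if_neg hy
    have G3 : ∀ y ∈ U, g' y = g y := fun y hy => G2 y fun h => N1 y h hy
    let ρ' : ι → Finset V := fun j => if j = i then x else ρ j
    have R1 : ρ' i = x := if_pos rfl
    have R2 : ∀ j ∈ J, ρ' j = ρ j := fun j hj => if_neg fun e : j = i => hi' (e ▸ hj)
    refine ⟨g', ρ', U ∪ N, fun y hy => ?_, fun y hy => ?_, (G3 a u2).trans g3, fun j hj => ?_,
      fun j hj l hl hne => ?_, ?_, mem_union_left _ u2, fun y hy => ?_, fun y hy => ?_,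
      fun j hj => ?_⟩
    · by_cases e : y ∈ N
      · rw [G1 y e, G1 _ (N2 y e)]
        exact ⟨fl_mem hy hβ', fl_ne _ _, fl_fl _ _⟩
      · have : g y ∉ N := fun h => e (by
          have := N3 _ h
          rwa [← u4 _ (N1 _ h), (g1 y hy).2.2] at this)
        rw [G2 y e, G2 _ this]
        exact g1 y hy
    · by_cases e : y ∈ N
      · exact ⟨β, G1 y e⟩
      · rw [G2 y e]
        exact g2 y hy
    · rcases mem_insert.1 hj with rfl | hj
      · rw [R1, G1 x xN]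
        exact ⟨hx, hxβ, fun e => x1 (e ▸ u2), fun e => x1 (e ▸ u3 a u2)⟩
      · rw [R2 j hj, G3 _ (u5 j hj).1]
        exact g4 j hj
    · rcases mem_insert.1 hj with ej | hj2 <;> rcases mem_insert.1 hl with el | hl2
      · exact absurd (ej.trans el.symm) hne
      · rw [ej, R1, R2 l hl2, G3 _ (u5 l hl2).1]
        exact ⟨fun e => x1 (e ▸ (u5 l hl2).1), fun e => x1 (e ▸ (u5 l hl2).2)⟩
      · rw [el, R1, R2 j hj2, G1 x xN]
        exact ⟨fun e => x1 (e ▸ (u5 j hj2).1), fun e => x2 (e ▸ (u5 j hj2).1)⟩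
      · rw [R2 j hj2, R2 l hl2, G3 _ (u5 l hl2).1]
        exact g5 j hj2 l hl2 hne
    · have := card_union_le U N
      have : N.card ≤ 4 := card_le_four
      omega
    · rcases mem_union.1 hy with hy | hy
      · exact mem_union_left _ (u3 y hy)
      · exact mem_union_right _ (N3 y hy)
    · rw [mem_union, not_or] at hy
      rw [G2 y hy.2, u4 y hy.1]
    · rcases mem_insert.1 hj with rfl | hj
      · rw [R1, G1 x xN]
        exact ⟨mem_union_right _ xN, mem_union_right _ (N2 x xN)⟩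
      · rw [R2 j hj, G3 _ (u5 j hj).1]
        exact ⟨mem_union_left _ (u5 j hj).1, mem_union_left _ (u5 j hj).2⟩

/-- a spanning closed system of a cube with the reserved edges. -/
theorem full {ι : Type} [DecidableEq ι] {A C a : Finset V} {t : V} (ha : a ∈ Icc A C)
    (ht : t ∈ C \ A) (lo hi : ι → Finset V) (k : ℕ) (J : Finset ι) (hk : J.card ≤ k)
    (hJ : ∀ i ∈ J, lo i ⊆ hi i ∧ Icc (lo i) (hi i) ⊆ Icc A C ∧
      8 * k + 4 < 2 ^ (hi i \ lo i).card) :
    ∃ (f g : Finset V → Finset V) (ρ : ι → Finset V), St (Icc A C) f g ∧ g a = fl t a ∧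
      (∀ i ∈ J, ρ i ∈ Icc (lo i) (hi i) ∧ g (ρ i) ∈ Icc (lo i) (hi i) ∧ ρ i ≠ a ∧ ρ i ≠ fl t a) ∧
      ∀ i ∈ J, ∀ j ∈ J, i ≠ j → ρ i ≠ ρ j ∧ ρ i ≠ g (ρ j) := by
  obtain ⟨g, ρ, U, g1, g2, g3, g4, g5, -⟩ := reserve ha ht lo hi k J hk hJ
  have hAC : A ⊆ C := (mem_Icc.1 ha).1.trans (mem_Icc.1 ha).2
  have hp : 0 < (C \ A).card := card_pos.2 ⟨t, ht⟩
  obtain ⟨f, f1, f2, f3⟩ := fink ((C \ A).card - 1) A C hAC (by omega) g g1
  exact ⟨f, g, ρ, ⟨f1, g1, f3, f2, g2⟩, g3, g4, g5⟩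

end

end Pool.Agent.MP_e46b50_co.H59

end

section
namespace Pool.Agent.MP_e46b50_co.H59

open Finset

section
variable {V : Type} [DecidableEq V] {ι : Type} [DecidableEq ι]

/-- a rooted tree of pairwise disjoint large cubes, each a shifted subcube of its parent. -/
structure Tr (Γ : Finset ι) (o : ι) (lo hi : ι → Finset V) (par : ι → ι) (y : ι → V)
    (rk : ι → ℕ) (k : ℕ) : Prop where
  root : o ∈ Γ
  sub : ∀ i ∈ Γ, lo i ⊆ hi i ∧ 8 * k + 4 < 2 ^ (hi i \ lo i).card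
  disj : ∀ i ∈ Γ, ∀ j ∈ Γ, i ≠ j → Disjoint (Icc (lo i) (hi i)) (Icc (lo j) (hi j))
  up : ∀ i ∈ Γ, i ≠ o → par i ∈ Γ ∧ rk i < rk (par i) ∧ y i ∉ hi i ∧
    lo (par i) ⊆ insert (y i) (lo i) ∧ insert (y i) (hi i) ⊆ hi (par i)
  few : ∀ i ∈ Γ, (Γ.filter fun j => j ≠ o ∧ par j = i).card ≤ k

variable {Γ : Finset ι} {o : ι} {lo hi : ι → Finset V} {par : ι → ι} {y : ι → V}
  {rk : ι → ℕ} {k : ℕ}

theorem Tr.up_sub (h : Tr Γ o lo hi par y rk k) {i : ι} (hi' : i ∈ Γ) (ho : i ≠ o) :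
    Icc (insert (y i) (lo i)) (insert (y i) (hi i)) ⊆ Icc (lo (par i)) (hi (par i)) :=
  Icc_subset_Icc (h.up i hi' ho).2.2.2.1 (h.up i hi' ho).2.2.2.2

theorem Tr.down (h : Tr Γ o lo hi par y rk k) {i : ι} (hi' : i ∈ Γ) (ho : i ≠ o) {u : Finset V}
    (hu : u ∈ Icc (insert (y i) (lo i)) (insert (y i) (hi i))) :
    fl (y i) u ∈ Icc (lo i) (hi i) := by
  have h1 := (h.up i hi' ho).2.2.1
  simp only [mem_Icc, le_eq_subset, insert_subset_iff] at hu
  rw [fl_erase hu.1.1, mem_Icc]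
  refine ⟨fun v hv => mem_erase.2 ⟨fun e => h1 (e ▸ (h.sub i hi').1 hv), hu.1.2 hv⟩, fun v hv => ?_⟩
  exact (mem_insert.1 (hu.2 (mem_erase.1 hv).2)).resolve_left (mem_erase.1 hv).1

theorem Tr.full (h : Tr Γ o lo hi par y rk k) {w : ι} (hw : w ∈ Γ) {a : Finset V} {t : V}
    (ha : a ∈ Icc (lo w) (hi w)) (ht : t ∈ hi w \ lo w) :
    ∃ (f g : Finset V → Finset V) (ρ : ι → Finset V), St (Icc (lo w) (hi w)) f g ∧ g a = fl t a ∧
      (∀ i ∈ Γ, i ≠ o → par i = w → ρ i ∈ Icc (insert (y i) (lo i)) (insert (y i) (hi i)) ∧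
        g (ρ i) ∈ Icc (insert (y i) (lo i)) (insert (y i) (hi i)) ∧ ρ i ≠ a ∧ ρ i ≠ fl t a) ∧
      ∀ i ∈ Γ, i ≠ o → par i = w → ∀ j ∈ Γ, j ≠ o → par j = w → i ≠ j →
        ρ i ≠ ρ j ∧ ρ i ≠ g (ρ j) := by
  obtain ⟨f, g, ρ, a1, a2, a3, a4⟩ := H59.full ha ht (fun i => insert (y i) (lo i))
    (fun i => insert (y i) (hi i)) k _ (h.few w hw) (fun i hi' => by
      obtain ⟨i1, i2, i3⟩ := mem_filter.1 hi'
      refine ⟨insert_subset_insert _ (h.sub i i1).1, i3 ▸ h.up_sub i1 i2, ?_⟩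
      have : insert (y i) (hi i) \ insert (y i) (lo i) = hi i \ lo i := by
        have := (h.up i i1 i2).2.2.1
        ext v
        simp only [mem_sdiff, mem_insert]
        by_cases e : v = y i
        · subst e
          tauto
        · tauto
      rw [this]
      exact (h.sub i i1).2)
  exact ⟨f, g, ρ, a1, a2, fun i i1 i2 i3 => a3 i (mem_filter.2 ⟨i1, i2, i3⟩),
    fun i i1 i2 i3 j j1 j2 j3 => a4 i (mem_filter.2 ⟨i1, i2, i3⟩) j (mem_filter.2 ⟨j1, j2, j3⟩)⟩

theorem Tr.bip (h : Tr Γ o lo hi par y rk k) {w : ι} (hw : w ∈ Γ) {a : Finset V} {t : V}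
    (ha : a ∈ Icc (lo w) (hi w)) (ht : t ∈ hi w \ lo w) {j : ℕ} (j1 : 1 ≤ j)
    (j2 : 2 * j ≤ (Icc (lo w) (hi w)).card) :
    ∃ Y ⊆ Icc (lo w) (hi w), Y.card = 2 * j ∧ a ∈ Y ∧ ∃ f g, St Y f g ∧ g a = fl t a := by
  have hp : 0 < (hi w \ lo w).card := card_pos.2 ⟨t, ht⟩
  obtain ⟨n, hn⟩ : ∃ n, (hi w \ lo w).card = n + 1 := ⟨_, (Nat.sub_add_cancel hp).symm⟩
  rw [card_cube (h.sub w hw).1, hn, pow_succ] at j2
  exact H59.bip n _ _ (h.sub w hw).1 hn a ha t ht j j1 (by omega)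

theorem Tr.grow (h : Tr Γ o lo hi par y rk k) {a : Finset V} {s : V}
    (ha : a ∈ Icc (lo o) (hi o)) (hs : s ∈ hi o \ lo o) (n : ℕ) : ∀ W : Finset ι, W.card = n →
    W ⊆ Γ → o ∈ W → (∀ i ∈ W, i ≠ o → par i ∈ W) →
    (∃ (f g : Finset V → Finset V) (ρ : ι → Finset V),
      St (W.biUnion fun i => Icc (lo i) (hi i)) f g ∧ g a = fl s a ∧
      (∀ i ∈ Γ, i ∉ W → par i ∈ W → ρ i ∈ Icc (insert (y i) (lo i)) (insert (y i) (hi i)) ∧
        g (ρ i) ∈ Icc (insert (y i) (lo i)) (insert (y i) (hi i)) ∧ ρ i ≠ a ∧ ρ i ≠ fl s a) ∧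
      ∀ i ∈ Γ, i ∉ W → par i ∈ W → ∀ j ∈ Γ, j ∉ W → par j ∈ W → i ≠ j →
        ρ i ≠ ρ j ∧ ρ i ≠ g (ρ j)) ∧
    ∀ j, 1 ≤ j → 2 * j ≤ (W.biUnion fun i => Icc (lo i) (hi i)).card →
      ∃ Y ⊆ W.biUnion fun i => Icc (lo i) (hi i), Y.card = 2 * j ∧ a ∈ Y ∧
        ∃ f g, St Y f g ∧ g a = fl s a := by
  induction n using Nat.strong_induction_on with
  | _ n ih =>
  intro W hn hW ho hpar
  rcases (W.erase o).eq_empty_or_nonempty with h0 | h0
  · have : W = {o} := by
      rw [← insert_erase ho, h0]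
      rfl
    subst this
    rw [singleton_biUnion]
    refine ⟨?_, fun j j1 j2 => h.bip h.root ha hs j1 j2⟩
    obtain ⟨f, g, ρ, a1, a2, a3, a4⟩ := h.full h.root ha hs
    simp only [mem_singleton]
    exact ⟨f, g, ρ, a1, a2, a3, a4⟩
  obtain ⟨w, hw, hmin⟩ := exists_min_image _ rk h0
  obtain ⟨hwo, hwW⟩ := mem_erase.1 hw
  have hwΓ := hW hwW
  have npar : ∀ i ∈ W, i ≠ o → par i ≠ w := fun i i1 i2 e => by
    have h1 := hmin i (mem_erase.2 ⟨i2, i1⟩)
    have h2 := (h.up i (hW i1) i2).2.1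
    rw [e] at h2
    omega
  have ho' : o ∈ W.erase w := mem_erase.2 ⟨hwo.symm, ho⟩
  obtain ⟨⟨f, g, ρ, a1, a2, a3, a4⟩, b⟩ := ih _ (hn ▸ card_erase_lt_of_mem hwW) (W.erase w) rfl
    ((erase_subset _ _).trans hW) ho' (fun i i1 i2 => mem_erase.2
      ⟨npar i (mem_erase.1 i1).2 i2, hpar i (mem_erase.1 i1).2 i2⟩)
  obtain ⟨T, hT⟩ : ∃ T, T = (W.erase w).biUnion fun i => Icc (lo i) (hi i) := ⟨_, rfl⟩
  rw [← hT] at a1 b
  have eU : (W.biUnion fun i => Icc (lo i) (hi i)) = T ∪ Icc (lo w) (hi w) := by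
    rw [hT, union_comm, ← biUnion_insert (t := fun i => Icc (lo i) (hi i)), insert_erase hwW]
  have inT : ∀ i ∈ W.erase w, ∀ u ∈ Icc (lo i) (hi i), u ∈ T := fun i i1 u hu =>
    hT ▸ mem_biUnion.2 ⟨i, i1, hu⟩
  have hd : Disjoint T (Icc (lo w) (hi w)) := by
    rw [hT, disjoint_biUnion_left]
    exact fun i i1 => h.disj i (hW (mem_erase.1 i1).2) w hwΓ (mem_erase.1 i1).1
  have ne : ∀ u ∈ T, ∀ v ∈ Icc (lo w) (hi w), u ≠ v := fun u hu v hv e =>
    disjoint_left.1 hd hu (e ▸ hv)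
  have aT : a ∈ T := inT o ho' a ha
  have aT' : fl s a ∈ T := a2 ▸ (a1.2.1 a aT).1
  have wn : w ∉ W.erase w := notMem_erase _ _
  have wp : par w ∈ W.erase w := mem_erase.2 ⟨npar w hwW hwo, hpar w hwW hwo⟩
  obtain ⟨x1, x2, x3, x4⟩ := a3 w hwΓ wn wp
  have xT : ρ w ∈ T := inT _ wp _ (h.up_sub hwΓ hwo x1)
  obtain ⟨β, hβ⟩ := a1.2.2.2.2 _ xT
  have x5 := h.down hwΓ hwo x1
  have hβ' : β ∈ hi w \ lo w := dir_mem x5 (by rw [fl_comm, ← hβ]; exact h.down hwΓ hwo x2)
  have x6 : a ≠ g (ρ w) := fun e => x4 (by rw [← a2]; exact (a1.2.1.swap xT e.symm).symm)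
  rw [eU]
  constructor
  · obtain ⟨f2, g2, ρ2, c1, c2, c3, c4⟩ := h.full hwΓ x5 hβ'
    obtain ⟨f', g', s1, -, s2, s3⟩ := a1.merge c1 hd xT x5 ⟨_, rfl⟩
      ⟨y w, by rw [c2, hβ, fl_comm]⟩
    let ρ' : ι → Finset V := fun i => if par i = w then ρ2 i else ρ i
    have no : ∀ i, i ∉ W → i ≠ o := fun i i1 e => i1 (e ▸ ho)
    have new : ∀ i ∈ Γ, i ∉ W → par i = w → ρ' i = ρ2 i ∧ g' (ρ2 i) = g2 (ρ2 i) ∧
        ρ2 i ∈ Icc (lo w) (hi w) ∧ g2 (ρ2 i) ∈ Icc (lo w) (hi w) := fun i i1 i2 i3 => by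
      obtain ⟨d1, d2, d3, d4⟩ := c3 i i1 (no i i2) i3
      have m : ρ2 i ∈ Icc (lo w) (hi w) := i3 ▸ h.up_sub i1 (no i i2) d1
      exact ⟨if_pos i3, s3 _ m d3 (c2 ▸ d4), m, (c1.2.1 _ m).1⟩
    have old : ∀ i ∈ Γ, i ∉ W → par i ∈ W → par i ≠ w → ρ' i = ρ i ∧ g' (ρ i) = g (ρ i) ∧
        ρ i ∈ T ∧ g (ρ i) ∈ T ∧ i ∉ W.erase w ∧ par i ∈ W.erase w := fun i i1 i2 i3 i4 => by
      have m1 : i ∉ W.erase w := fun hm => i2 (mem_erase.1 hm).2
      have m2 : par i ∈ W.erase w := mem_erase.2 ⟨i4, i3⟩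
      have m : ρ i ∈ T := inT _ m2 _ (h.up_sub i1 (no i i2) (a3 i i1 m1 m2).1)
      obtain ⟨d1, d2⟩ := a4 i i1 m1 m2 w hwΓ wn wp fun e => i2 (e ▸ hwW)
      exact ⟨if_neg i4, s2 _ m d1 d2, m, (a1.2.1 _ m).1, m1, m2⟩
    refine ⟨f', g', ρ', s1, (s2 a aT x3.symm x6).trans a2, fun i i1 i2 i3 => ?_,
      fun i i1 i2 i3 j j1 j2 j3 hne => ?_⟩
    · by_cases e : par i = w
      · obtain ⟨d1, d2, d3, d4⟩ := new i i1 i2 e
        obtain ⟨e1, e2, -⟩ := c3 i i1 (no i i2) e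
        rw [d1, d2]
        exact ⟨e1, e2, (ne _ aT _ d3).symm, (ne _ aT' _ d3).symm⟩
      · obtain ⟨d1, d2, d3, d4, d5, d6⟩ := old i i1 i2 i3 e
        rw [d1, d2]
        exact a3 i i1 d5 d6
    · by_cases e : par i = w <;> by_cases e' : par j = w
      · obtain ⟨d1, -⟩ := new i i1 i2 e
        obtain ⟨e1, e2, -⟩ := new j j1 j2 e'
        rw [d1, e1, e2]
        exact c4 i i1 (no i i2) e j j1 (no j j2) e' hne
      · obtain ⟨d1, -, d3, -⟩ := new i i1 i2 e
        obtain ⟨e1, e2, e3, e4, -⟩ := old j j1 j2 j3 e'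
        rw [d1, e1, e2]
        exact ⟨(ne _ e3 _ d3).symm, (ne _ e4 _ d3).symm⟩
      · obtain ⟨d1, -, d3, -⟩ := old i i1 i2 i3 e
        obtain ⟨e1, e2, e3, e4⟩ := new j j1 j2 e'
        rw [d1, e1, e2]
        exact ⟨ne _ d3 _ e3, ne _ d3 _ e4⟩
      · obtain ⟨d1, -, -, -, d5, d6⟩ := old i i1 i2 i3 e
        obtain ⟨e1, e2, -, -, e5, e6⟩ := old j j1 j2 j3 e'
        rw [d1, e1, e2]
        exact a4 i i1 d5 d6 j j1 e5 e6 hne
  · intro j j1 j2
    by_cases hj : 2 * j ≤ T.card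
    · obtain ⟨Y, y1, y2⟩ := b j j1 hj
      exact ⟨Y, y1.trans subset_union_left, y2⟩
    obtain ⟨u, hu⟩ := a1.1.even
    rw [card_union_of_disjoint hd] at j2
    obtain ⟨Z, z1, z2, z3, f2, g2, c1, c2⟩ := h.bip hwΓ x5 hβ' (j := j - u) (by omega) (by omega)
    have hd' : Disjoint T Z := hd.mono_right z1
    obtain ⟨f', g', s1, -, s2, -⟩ := a1.merge c1 hd' xT z3 ⟨_, rfl⟩
      ⟨y w, by rw [c2, hβ, fl_comm]⟩
    refine ⟨T ∪ Z, union_subset_union_right z1, ?_, mem_union_left _ aT, f', g', s1,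
      (s2 a aT x3.symm x6).trans a2⟩
    rw [card_union_of_disjoint hd']
    omega

/-- paths with every even number of vertices between the ends of an edge of the root cube. -/
theorem Tr.paths (h : Tr Γ o lo hi par y rk k) {a : Finset V} {s : V}
    (ha : a ∈ Icc (lo o) (hi o)) (hs : s ∈ hi o \ lo o) (H : SimpleGraph (Finset V))
    (hH : ∀ X z, H.Adj X (fl z X)) {j : ℕ} (j1 : 1 ≤ j)
    (j2 : 2 * j ≤ (Γ.biUnion fun i => Icc (lo i) (hi i)).card) :
    ∃ p : H.Walk a (fl s a), p.IsPath ∧ p.length + 1 = 2 * j ∧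
      ∀ x ∈ p.support, x ∈ Γ.biUnion fun i => Icc (lo i) (hi i) := by
  obtain ⟨Y, y1, y2, y3, f, g, s1, s2⟩ := (h.grow ha hs _ Γ rfl Subset.rfl h.root
    fun i i1 i2 => (h.up i i1 i2).1).2 j j1 j2
  obtain ⟨p, p1, p2, p3⟩ := path H f _ Y g a _ y2 s1.1 s1.2.1 s1.2.2.1 y3 s2
    (fun x hx => by
      obtain ⟨z, e⟩ := s1.2.2.2.1 x hx
      exact e ▸ hH x z)
    (fun x hx _ _ => by
      obtain ⟨z, e⟩ := s1.2.2.2.2 x hx
      exact e ▸ hH x z)
  exact ⟨p, p1, p2, fun x hx => y1 (p3 x hx)⟩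

end

end Pool.Agent.MP_e46b50_co.H59

end

section
namespace Pool.Agent.MP_e46b50_co.H59

open Finset

section
variable {V : Type} [Fintype V] [DecidableEq V]

/-- greedy choice of a conflict free set missed in many points by most members of `F`. -/
theorem select (low : Finset V) (nb : V → Finset V) (L M : ℕ) (hL : 1 ≤ L)
    (h : ∀ p ∈ low, (nb p).card ≤ L) (F : Finset (Finset V))
    (hF : ∀ D ∈ F, Fintype.card V ≤ 10 * Dᶜ.card)
    (hn : 100 * M * (100 * L * L + 1) ≤ Fintype.card V) (m : ℕ) : m ≤ M →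
    ∃ S : Finset V, S.card = m ∧ (∀ s ∈ S, (low.filter fun p => s ∈ nb p).card ≤ 100 * L) ∧
      (∀ p ∈ low, ∀ s ∈ S, ∀ s' ∈ S, s ∈ nb p → s' ∈ nb p → s = s') ∧
      ∑ D ∈ F, (1 / 2 : ℝ) ^ (S \ D).card ≤ (24 / 25) ^ m * F.card := by
  induction m with
  | zero => exact fun _ => ⟨∅, rfl, by simp, by simp, by simp⟩
  | succ m ih =>
    intro hm
    obtain ⟨S, s1, s2, s3, s4⟩ := ih (by omega)
    obtain ⟨n, hn'⟩ : ∃ n, Fintype.card V = n := ⟨_, rfl⟩
    rw [hn'] at hF hn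
    let B1 : Finset V := univ.filter fun s => 100 * L < (low.filter fun p => s ∈ nb p).card
    let B2 : Finset V := S ∪ S.biUnion fun s => (low.filter fun p => s ∈ nb p).biUnion nb
    have b1 : 100 * B1.card ≤ n := by
      have e1 : ∑ s : V, (low.filter fun p => s ∈ nb p).card = ∑ p ∈ low, (nb p).card := by
        simp only [card_filter]
        rw [sum_comm]
        refine sum_congr rfl fun p _ => ?_
        rw [← card_filter]
        congr 1
        ext s
        simp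
      have e2 : ∑ p ∈ low, (nb p).card ≤ low.card * L := by
        simpa using sum_le_card_nsmul low _ L h
      have e3 : low.card ≤ n := hn' ▸ card_le_univ low
      have e4 : B1.card * (100 * L) ≤ ∑ s ∈ B1, (low.filter fun p => s ∈ nb p).card := by
        simpa using card_nsmul_le_sum B1 (fun s => (low.filter fun p => s ∈ nb p).card) (100 * L)
          fun s hs => (mem_filter.1 hs).2.le
      have e5 : ∑ s ∈ B1, (low.filter fun p => s ∈ nb p).card ≤
          ∑ s : V, (low.filter fun p => s ∈ nb p).card := sum_le_sum_of_subset (subset_univ _)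
      have e6 : 100 * B1.card * L ≤ n * L := by
        have := Nat.mul_le_mul_right L e3
        nlinarith
      exact Nat.le_of_mul_le_mul_right e6 hL
    have b2 : 100 * B2.card ≤ n := by
      have e1 : (S.biUnion fun s => (low.filter fun p => s ∈ nb p).biUnion nb).card ≤
          S.card * (100 * L * L) := by
        refine card_biUnion_le_card_mul _ _ _ fun s hs => ?_
        refine (card_biUnion_le_card_mul _ _ L fun p hp => h p (mem_filter.1 hp).1).trans ?_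
        exact Nat.mul_le_mul_right L (s2 s hs)
      have e2 : B2.card ≤ S.card + S.card * (100 * L * L) :=
        (card_union_le _ _).trans (by omega)
      have e3 : m * (100 * L * L + 1) ≤ M * (100 * L * L + 1) := Nat.mul_le_mul_right _ (by omega)
      rw [s1] at e2
      nlinarith
    have npos : 0 < n := by
      have : 1 * 1 ≤ M * (100 * L * L + 1) := Nat.mul_le_mul (by omega) (by omega)
      nlinarith
    let A : Finset V := (B1 ∪ B2)ᶜ
    have a0 : (B1 ∪ B2).card ≤ B1.card + B2.card := card_union_le _ _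
    have a1 : A.card ≤ n := hn' ▸ card_le_univ A
    have a2 : A.Nonempty := by
      rw [← card_pos, card_compl, hn']
      omega
    have a3 : ∀ D ∈ F, 2 * A.card ≤ 25 * (A \ D).card := fun D hD => by
      have e1 : Dᶜ ⊆ (A \ D) ∪ (B1 ∪ B2) := fun v hv => by
        by_cases e : v ∈ B1 ∪ B2
        · exact mem_union_right _ e
        · exact mem_union_left _ (mem_sdiff.2 ⟨mem_compl.2 e, mem_compl.1 hv⟩)
      have e2 := (card_le_card e1).trans (card_union_le _ _)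
      have := hF D hD
      omega
    obtain ⟨s, hs, hle⟩ : ∃ s ∈ A, ∑ D ∈ F, (1 / 2 : ℝ) ^ (S \ D).card * (if s ∈ D then 1 else 1 / 2)
        ≤ 24 / 25 * ∑ D ∈ F, (1 / 2 : ℝ) ^ (S \ D).card := by
      refine exists_le_of_sum_le a2 ?_
      rw [sum_comm, sum_const, nsmul_eq_mul, mul_sum, mul_sum]
      refine sum_le_sum fun D hD => ?_
      rw [← mul_sum, sum_ite, sum_const, sum_const, nsmul_eq_mul, nsmul_eq_mul]
      have e1 := card_filter_add_card_filter_not (s := A) (fun s => s ∈ D)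
      have e2 : A.filter (fun s => ¬ s ∈ D) = A \ D := (sdiff_eq_filter _ _).symm
      rw [e2] at e1 ⊢
      have e3 : ((A.filter fun s => s ∈ D).card : ℝ) + (A \ D).card = A.card := by exact_mod_cast e1
      have e4 : (2 * A.card : ℝ) ≤ 25 * (A \ D).card := by exact_mod_cast a3 D hD
      have e5 : (0 : ℝ) < (1 / 2 : ℝ) ^ (S \ D).card := by positivity
      nlinarith
    have hs' := mem_compl.1 hs
    rw [mem_union, not_or] at hs'
    have n1 : s ∉ S := fun e => hs'.2 (mem_union_left _ e)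
    have n2 : ∀ p ∈ low, ∀ s' ∈ S, s ∈ nb p → s' ∉ nb p := fun p hp s' h1 h2 h3 =>
      hs'.2 (mem_union_right _ (mem_biUnion.2 ⟨s', h1, mem_biUnion.2
        ⟨p, mem_filter.2 ⟨hp, h3⟩, h2⟩⟩))
    refine ⟨insert s S, by rw [card_insert_of_notMem n1, s1], fun u hu => ?_,
      fun p hp u hu v hv h1 h2 => ?_, ?_⟩
    · rcases mem_insert.1 hu with rfl | hu
      · by_contra e
        exact hs'.1 (mem_filter.2 ⟨mem_univ _, not_le.1 e⟩)
      · exact s2 u hu
    · rcases mem_insert.1 hu with eu | hu' <;> rcases mem_insert.1 hv with ev | hv'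
      · rw [eu, ev]
      · exact absurd h2 (n2 p hp v hv' (eu ▸ h1))
      · exact absurd h1 (n2 p hp u hu' (ev ▸ h2))
      · exact s3 p hp u hu' v hv' h1 h2
    · calc ∑ D ∈ F, (1 / 2 : ℝ) ^ (insert s S \ D).card
          = ∑ D ∈ F, (1 / 2 : ℝ) ^ (S \ D).card * (if s ∈ D then 1 else 1 / 2) := by
            refine sum_congr rfl fun D _ => ?_
            by_cases e : s ∈ D
            · rw [insert_sdiff_of_mem _ e, if_pos e, mul_one]
            · rw [insert_sdiff_of_notMem _ e, if_neg e,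
                card_insert_of_notMem fun h => n1 (mem_sdiff.1 h).1, pow_succ]
        _ ≤ 24 / 25 * ((24 / 25) ^ m * F.card) := hle.trans (by gcongr)
        _ = _ := by ring

omit [Fintype V] in
/-- few members of an up-set avoid a large set. -/
theorem avoid (F : Finset (Finset V)) (T : Finset V) (hF : ∀ D ∈ F, ∀ U ⊆ T, D ∪ U ∈ F) :
    (F.filter fun D => Disjoint D T).card * 2 ^ T.card ≤ F.card := by
  rw [← card_powerset, ← card_product]
  refine card_le_card_of_injOn (fun q => q.1 ∪ q.2) (fun q hq => ?_) fun q hq r hr e => ?_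
  · simp only [coe_product, Set.mem_prod, mem_coe, mem_filter, mem_powerset] at hq
    exact hF _ hq.1.1 _ hq.2
  · simp only [coe_product, Set.mem_prod, mem_coe, mem_filter, mem_powerset] at hq hr
    have e' : ∀ v, v ∈ q.1 ∨ v ∈ q.2 ↔ v ∈ r.1 ∨ v ∈ r.2 := fun v => by
      rw [← mem_union, ← mem_union]
      exact iff_of_eq (congrArg (fun X => v ∈ X) e)
    have q1 : ∀ v, v ∈ q.1 → v ∉ T := fun v h => disjoint_left.1 hq.1.2 h
    have r1 : ∀ v, v ∈ r.1 → v ∉ T := fun v h => disjoint_left.1 hr.1.2 h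
    have q2 : ∀ v, v ∈ q.2 → v ∈ T := fun v h => hq.2 h
    have r2 : ∀ v, v ∈ r.2 → v ∈ T := fun v h => hr.2 h
    ext v
    · have := e' v
      have := q1 v
      have := r1 v
      have := q2 v
      have := r2 v
      tauto
    · have := e' v
      have := q1 v
      have := r1 v
      have := q2 v
      have := r2 v
      tauto

/-- few sets have a small complement. -/
theorem small (d k : ℕ) (hk : Fintype.card V ≤ 2 * k) (hd : 40 * (d + 2) ≤ Fintype.card V) :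
    (univ.filter fun D : Finset V => 10 * Dᶜ.card < Fintype.card V).card * 2 ^ d ≤ 2 ^ k := by
  obtain ⟨n, hn⟩ : ∃ n, Fintype.card V = n := ⟨_, rfl⟩
  rw [hn] at hk hd ⊢
  obtain ⟨q, hq⟩ : ∃ q, q = n / 10 := ⟨_, rfl⟩
  have e1 : ∑ D : Finset V, (1 / 8 : ℝ) ^ Dᶜ.card = (9 / 8) ^ n := by
    rw [show ∑ D : Finset V, (1 / 8 : ℝ) ^ Dᶜ.card = ∑ D : Finset V, (1 / 8 : ℝ) ^ D.card from
      Fintype.sum_equiv (Function.Involutive.toPerm _ compl_involutive) _ _ fun _ => rfl]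
    have := prod_one_add (f := fun _ : V => (1 / 8 : ℝ)) univ
    simp only [prod_const, card_univ, hn, powerset_univ] at this
    rw [← this]
    norm_num
  have e2 : ((univ.filter fun D : Finset V => 10 * Dᶜ.card < n).card : ℝ) * (1 / 8) ^ q ≤
      (9 / 8) ^ n := by
    rw [← e1, ← nsmul_eq_mul]
    refine (card_nsmul_le_sum _ (fun D : Finset V => (1 / 8 : ℝ) ^ Dᶜ.card) _ fun D hD => ?_).trans
      (sum_le_sum_of_subset_of_nonneg (subset_univ _) fun _ _ _ => by positivity)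
    have := (mem_filter.1 hD).2
    exact pow_le_pow_of_le_one (by norm_num) (by norm_num) (by omega)
  have e3 : (9 / 8 : ℝ) ^ n ≤ 4 * (13 / 4) ^ q := by
    calc (9 / 8 : ℝ) ^ n ≤ (9 / 8) ^ (10 * q + 9) := pow_le_pow_right₀ (by norm_num) (by omega)
      _ = ((9 / 8) ^ 10) ^ q * (9 / 8) ^ 9 := by rw [pow_add, pow_mul]
      _ ≤ (13 / 4) ^ q * 4 := by gcongr <;> norm_num
      _ = _ := by ring
  have e4 : (4 * 2 ^ d : ℝ) ≤ (16 / 13) ^ q := by
    calc (4 * 2 ^ d : ℝ) = 2 ^ (d + 2) := by ring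
      _ ≤ ((16 / 13) ^ 4) ^ (d + 2) := by gcongr; norm_num
      _ = (16 / 13) ^ (4 * (d + 2)) := by rw [pow_mul]
      _ ≤ _ := pow_le_pow_right₀ (by norm_num) (by omega)
  have e5 : (32 : ℝ) ^ q ≤ 2 ^ k := by
    calc (32 : ℝ) ^ q = 2 ^ (5 * q) := by rw [pow_mul]; norm_num
      _ ≤ _ := pow_le_pow_right₀ (by norm_num) (by omega)
  have e6 : (1 / 8 : ℝ) ^ q * 8 ^ q = 1 := by rw [← mul_pow]; norm_num
  have e7 : (13 / 4 : ℝ) ^ q * 8 ^ q * (16 / 13) ^ q = 32 ^ q := by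
    rw [← mul_pow, ← mul_pow]; norm_num
  have : ((univ.filter fun D : Finset V => 10 * Dᶜ.card < n).card : ℝ) * 2 ^ d ≤ 2 ^ k := by
    generalize ((univ.filter fun D : Finset V => 10 * Dᶜ.card < n).card : ℝ) = B at e2
    calc B * 2 ^ d = B * (1 / 8) ^ q * 8 ^ q * 2 ^ d := by rw [mul_assoc B, e6, mul_one]
      _ ≤ 4 * (13 / 4) ^ q * 8 ^ q * 2 ^ d :=
        mul_le_mul_of_nonneg_right (mul_le_mul_of_nonneg_right (e2.trans e3) (by positivity))
          (by positivity)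
      _ = (13 / 4) ^ q * 8 ^ q * (4 * 2 ^ d) := by ring
      _ ≤ (13 / 4) ^ q * 8 ^ q * (16 / 13) ^ q := by gcongr
      _ ≤ _ := e7 ▸ e5
  exact_mod_cast this

omit [Fintype V] [DecidableEq V] in
theorem dom_up {G : SimpleGraph V} {X Y : Finset V} (hX : Dominating G X) (h : X ⊆ Y) :
    Dominating G Y := fun v hv =>
  let ⟨u, hu, e⟩ := hX v fun hm => hv (h hm)
  ⟨u, h hu, e⟩

/-- Ore's bound. -/
theorem ore {G : SimpleGraph V} (hG : ∀ v, ∃ w, G.Adj v w) :
    ∃ D : Finset V, Dominating G D ∧ Fintype.card V ≤ 2 * Dᶜ.card := by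
  classical
  obtain ⟨D, hD, hmin⟩ := exists_min_image (univ.filter fun D : Finset V => Dominating G D) card
    ⟨univ, mem_filter.2 ⟨mem_univ _, fun v hv => absurd (mem_univ v) hv⟩⟩
  have hD := (mem_filter.1 hD).2
  have hc : Dominating G Dᶜ := fun v hv => by
    have hv' : v ∈ D := by simpa using hv
    by_contra hno
    have h1 : ∀ u, G.Adj v u → u ∈ D := fun u hu => by
      by_contra e
      exact hno ⟨u, mem_compl.2 e, hu⟩
    have h2 : Dominating G (D.erase v) := fun w hw => by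
      by_cases e : w = v
      · obtain ⟨u, hu⟩ := hG v
        exact ⟨u, mem_erase.2 ⟨hu.ne.symm, h1 u hu⟩, e ▸ hu⟩
      · have hw' : w ∉ D := fun hm => hw (mem_erase.2 ⟨e, hm⟩)
        obtain ⟨u, hu, a⟩ := hD w hw'
        exact ⟨u, mem_erase.2 ⟨fun e' => hw' (h1 w (e' ▸ a.symm)), hu⟩, a⟩
    have := hmin _ (mem_filter.2 ⟨mem_univ _, h2⟩)
    have := card_erase_lt_of_mem hv'
    omega
  have h3 := hmin _ (mem_filter.2 ⟨mem_univ _, hc⟩)
  have h4 := card_add_card_compl D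
  exact ⟨D, hD, by omega⟩

end

end Pool.Agent.MP_e46b50_co.H59

end

section
namespace Pool.Agent.MP_e46b50_co.H59

open Finset
open scoped Classical

section
variable {V : Type} [Fintype V] [DecidableEq V] (G : SimpleGraph V)

/-- closed neighbourhood. -/
noncomputable def nb (p : V) : Finset V := univ.filter fun u => u = p ∨ G.Adj p u

/-- the elements of `S` that can be dropped from `W ∪ S`. -/
noncomputable def Zs (S W : Finset V) : Finset V :=
  S.filter fun s => Dominating G ((W ∪ S).erase s)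

/-- the traces outside `S` whose cubes are used. -/
noncomputable def good (S : Finset V) (b : V) (L d : ℕ) : Finset (Finset V) :=
  univ.filter fun W => Disjoint W S ∧ (∀ p, L < (nb G p).card → ∃ u ∈ W, u ∈ nb G p) ∧
    Dominating G (W ∪ S) ∧ d ≤ (Zs G S W).card ∧ W ≠ Sᶜ.erase b

/-- the vertex added to reach the parent. -/
noncomputable def nxt (S : Finset V) (b : V) (W : Finset V) : V :=
  if h : b ∈ W ∧ (Sᶜ \ W).Nonempty then h.2.choose else b

/-- the moves on all vertex sets. -/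
def gam : SimpleGraph (Finset V) :=
  SimpleGraph.fromRel fun X Y => (symmDiff X Y).card = 1 ∨
    ∃ u ∈ X, ∃ v ∈ Y \ X, G.Adj u v ∧ Y = (insert v X).erase u

variable {G}

theorem dom_iff {D : Finset V} : Dominating G D ↔ ∀ p, ∃ u ∈ D, u ∈ nb G p := by
  constructor
  · intro h p
    by_cases e : p ∈ D
    · exact ⟨p, e, by simp [nb]⟩
    · obtain ⟨u, hu, a⟩ := h p e
      exact ⟨u, hu, by simp [nb, a]⟩
  · intro h p e
    obtain ⟨u, hu, a⟩ := h p
    simp only [nb, mem_filter, mem_univ, true_and] at a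
    exact ⟨u, hu, a.resolve_left fun e' => e (e' ▸ hu)⟩

theorem dom_erase (hG : ∀ v, ∃ w, G.Adj v w) (s : V) : Dominating G (univ.erase s) := fun v hv => by
  have : v = s := by simpa using hv
  obtain ⟨w, hw⟩ := hG v
  exact ⟨w, mem_erase.2 ⟨this ▸ hw.ne.symm, mem_univ _⟩, hw⟩

theorem Zs_dim {S W : Finset V} (h : Disjoint W S) :
    (W ∪ S) \ (W ∪ (S \ Zs G S W)) = Zs G S W := by
  have h1 : ∀ v, v ∈ Zs G S W → v ∈ S := fun v hv => (mem_filter.1 hv).1
  have h2 : ∀ v, v ∈ W → v ∉ S := fun v hv => disjoint_left.1 h hv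
  ext v
  simp only [mem_sdiff, mem_union]
  have := h1 v
  have := h2 v
  tauto

theorem trace {S W D : Finset V} (h : Disjoint W S)
    (hD : D ∈ Icc (W ∪ (S \ Zs G S W)) (W ∪ S)) : D \ S = W := by
  rw [mem_Icc] at hD
  ext v
  rw [mem_sdiff]
  exact ⟨fun hv => (mem_union.1 (hD.2 hv.1)).resolve_right hv.2,
    fun hv => ⟨hD.1 (mem_union_left _ hv), disjoint_left.1 h hv⟩⟩

theorem nxt_spec {S W : Finset V} {b : V} (hb : b ∉ S) (h : Disjoint W S) (hW : W ≠ Sᶜ) :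
    nxt S b W ∉ W ∧ nxt S b W ∉ S ∧ b ∈ insert (nxt S b W) W := by
  unfold nxt
  split_ifs with e
  · have := mem_sdiff.1 e.2.choose_spec
    exact ⟨this.2, mem_compl.1 this.1, mem_insert_of_mem e.1⟩
  · refine ⟨fun hm => e ⟨hm, ?_⟩, hb, mem_insert_self _ _⟩
    rw [sdiff_nonempty]
    exact fun hs => hW (Subset.antisymm (fun v hv => mem_compl.2 (disjoint_left.1 h hv)) hs)

theorem tree (hG : ∀ v, ∃ w, G.Adj v w) {S : Finset V} {b : V} {L d : ℕ} (hb : b ∉ S)
    (h1 : S.card ≤ L) (h2 : d ≤ S.card) (h3 : 8 * Fintype.card V + 4 < 2 ^ d) :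
    Tr (good G S b L d) Sᶜ (fun W => W ∪ (S \ Zs G S W)) (fun W => W ∪ S)
      (fun W => insert (nxt S b W) W) (nxt S b) card (Fintype.card V) := by
  have hu : Sᶜ ∪ S = univ := by rw [union_comm, union_compl]
  refine ⟨mem_filter.2 ⟨mem_univ _, disjoint_compl_left, fun p hp => ?_, ?_, ?_, fun e => ?_⟩,
    fun W hW => ?_, fun W hW W' hW' hne => ?_, fun W hW hne => ?_, fun W hW => ?_⟩
  · obtain ⟨u, u1, u2⟩ := exists_mem_notMem_of_card_lt_card (s := S) (t := nb G p) (by omega)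
    exact ⟨u, mem_compl.2 u2, u1⟩
  · rw [hu]
    exact fun v hv => absurd (mem_univ v) hv
  · rw [Zs, hu, filter_true_of_mem fun s _ => dom_erase hG s]
    exact h2
  · have : b ∈ Sᶜ := mem_compl.2 hb
    rw [e] at this
    exact notMem_erase _ _ this
  · obtain ⟨-, w1, -, -, w4, -⟩ := mem_filter.1 hW
    refine ⟨union_subset_union_right sdiff_subset, ?_⟩
    rw [Zs_dim w1]
    exact h3.trans_le (Nat.pow_le_pow_right (by norm_num) w4)
  · rw [disjoint_left]
    intro D d1 d2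
    exact hne ((trace (mem_filter.1 hW).2.1 d1).symm.trans (trace (mem_filter.1 hW').2.1 d2))
  · obtain ⟨-, w1, w2, w3, w4, w5⟩ := mem_filter.1 hW
    obtain ⟨n1, n2, n3⟩ := nxt_spec hb w1 hne
    have sub : W ∪ S ⊆ insert (nxt S b W) W ∪ S := union_subset_union_left (subset_insert _ _)
    have mono : Zs G S W ⊆ Zs G S (insert (nxt S b W) W) := fun s hs =>
      mem_filter.2 ⟨(mem_filter.1 hs).1, dom_up (mem_filter.1 hs).2 (erase_subset_erase _ sub)⟩
    refine ⟨mem_filter.2 ⟨mem_univ _, disjoint_insert_left.2 ⟨n2, w1⟩, fun p hp => ?_,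
      dom_up w3 sub, w4.trans (card_le_card mono), fun e => ?_⟩, ?_, ?_, ?_, ?_⟩
    · obtain ⟨u, u1, u2⟩ := w2 p hp
      exact ⟨u, mem_insert_of_mem u1, u2⟩
    · rw [e] at n3
      exact notMem_erase _ _ n3
    · rw [card_insert_of_notMem n1]
      omega
    · exact fun hm => (mem_union.1 hm).elim n1 n2
    · rw [insert_union]
      exact insert_subset_insert _ (union_subset_union_right (sdiff_subset_sdiff Subset.rfl mono))
    · rw [insert_union]
  · rw [← card_univ]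
    refine card_le_card_of_injOn (nxt S b) (fun _ _ => by simp) fun X hX Y hY e => ?_
    obtain ⟨x1, x2, x3⟩ := mem_filter.1 (mem_coe.1 hX)
    obtain ⟨y1, y2, y3⟩ := mem_filter.1 (mem_coe.1 hY)
    rw [← erase_insert (nxt_spec hb (mem_filter.1 x1).2.1 x2).1,
      ← erase_insert (nxt_spec hb (mem_filter.1 y1).2.1 y2).1, x3, y3, e]

theorem piece_dom {S W D : Finset V} {b : V} {L d : ℕ}
    (hS : ∀ p, (nb G p).card ≤ L → ∀ s ∈ S, ∀ s' ∈ S, s ∈ nb G p → s' ∈ nb G p → s = s')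
    (hW : W ∈ good G S b L d) (hD : D ∈ Icc (W ∪ (S \ Zs G S W)) (W ∪ S)) : Dominating G D := by
  obtain ⟨-, w1, w2, w3, -⟩ := mem_filter.1 hW
  refine dom_up (dom_iff.2 fun p => ?_) (mem_Icc.1 hD).1
  by_cases hp : L < (nb G p).card
  · obtain ⟨u, u1, u2⟩ := w2 p hp
    exact ⟨u, mem_union_left _ u1, u2⟩
  obtain ⟨u, u1, u2⟩ := dom_iff.1 w3 p
  rcases mem_union.1 u1 with u1 | u1
  · exact ⟨u, mem_union_left _ u1, u2⟩
  by_cases e : u ∈ Zs G S W
  · obtain ⟨v, v1, v2⟩ := dom_iff.1 (mem_filter.1 e).2 p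
    obtain ⟨v3, v4⟩ := mem_erase.1 v1
    rcases mem_union.1 v4 with v4 | v4
    · exact ⟨v, mem_union_left _ v4, v2⟩
    · exact absurd (hS p (not_lt.1 hp) v v4 u u1 v2 u2) v3
  · exact ⟨u, mem_union_right _ (mem_sdiff.2 ⟨u1, e⟩), u2⟩

theorem covered {S D : Finset V} {b : V} {L d : ℕ} (hD : Dominating G D)
    (h1 : ∀ p, L < (nb G p).card → ¬ Disjoint D (nb G p \ S)) (h2 : d ≤ (S \ D).card)
    (h3 : D \ S ≠ Sᶜ.erase b) :
    D ∈ (good G S b L d).biUnion fun W => Icc (W ∪ (S \ Zs G S W)) (W ∪ S) := by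
  have s1 : D ⊆ D \ S ∪ S := by
    rw [sdiff_union_self_eq_union]
    exact subset_union_left
  have s2 : S \ D ⊆ Zs G S (D \ S) := fun s hs => mem_filter.2 ⟨(mem_sdiff.1 hs).1,
    dom_up hD fun v hv => mem_erase.2 ⟨fun e => (mem_sdiff.1 hs).2 (e ▸ hv), s1 hv⟩⟩
  refine mem_biUnion.2 ⟨D \ S, mem_filter.2 ⟨mem_univ _, sdiff_disjoint, fun p hp => ?_,
    dom_up hD s1, h2.trans (card_le_card s2), h3⟩, mem_Icc.2 ⟨union_subset sdiff_subset ?_, s1⟩⟩
  · obtain ⟨u, u1, u2⟩ := not_disjoint_iff.1 (h1 p hp)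
    exact ⟨u, mem_sdiff.2 ⟨u1, (mem_sdiff.1 u2).2⟩, (mem_sdiff.1 u2).1⟩
  · intro v hv
    by_contra e
    exact (mem_sdiff.1 hv).2 (s2 (mem_sdiff.2 ⟨(mem_sdiff.1 hv).1, e⟩))

omit [Fintype V] in
theorem gam_fl (X : Finset V) (z : V) : (gam G).Adj X (fl z X) :=
  ⟨(fl_ne z X).symm, Or.inl (Or.inl (by rw [fl, symmDiff_symmDiff_cancel_left, card_singleton]))⟩

theorem gam_slide {s b : V} (h : G.Adj s b) : (gam G).Adj (univ.erase s) (univ.erase b) := by
  have hne := h.ne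
  refine ⟨fun he => ?_, Or.inl (Or.inr ⟨b, by simp [hne.symm], s, by simp [hne], h.symm, ?_⟩)⟩
  · have : b ∈ univ.erase s := by simp [hne.symm]
    rw [he] at this
    simp at this
  · rw [insert_erase (mem_univ s)]

omit [Fintype V] in
theorem lift_walk {a b : Finset V} (p : (gam G).Walk a b) :
    ∀ (ha : Dominating G a) (hb : Dominating G b), (∀ y ∈ p.support, Dominating G y) →
      ∃ q : (tars G).Walk ⟨a, ha⟩ ⟨b, hb⟩, q.support.map Subtype.val = p.support := by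
  induction p with
  | nil => exact fun _ _ _ => ⟨.nil, rfl⟩
  | @cons a a' b hadj p ih =>
    intro ha hb h
    have ha' : Dominating G a' := h a' (by simp)
    obtain ⟨q, hq⟩ := ih ha' hb fun y hy => h y (by simp [hy])
    exact ⟨.cons ⟨fun he => hadj.1 (congrArg Subtype.val he), hadj.2⟩ q, by simp [hq]⟩

omit [Fintype V] in
theorem close {a b : Finset V} (p : (gam G).Walk a b) (hp : p.IsPath) (h2 : 2 ≤ p.length)
    (hd : ∀ y ∈ p.support, Dominating G y) (hab : (gam G).Adj b a) :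
    ∃ D, ∃ c : (tars G).Walk D D, c.IsCycle ∧ c.length = p.length + 1 := by
  obtain ⟨q, hq⟩ := lift_walk p (hd a p.start_mem_support) (hd b p.end_mem_support) hd
  have hl : q.length = p.length := by
    have := congrArg List.length hq
    simpa using this
  have hqp : q.IsPath := by
    rw [SimpleGraph.Walk.isPath_def]
    exact List.Nodup.of_map Subtype.val (hq ▸ hp.support_nodup)
  have hadj : (tars G).Adj ⟨b, hd b p.end_mem_support⟩ ⟨a, hd a p.start_mem_support⟩ :=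
    ⟨fun he => hab.1 (congrArg Subtype.val he), hab.2⟩
  refine ⟨_, .cons hadj q, (SimpleGraph.Walk.cons_isCycle_iff _ _).2 ⟨hqp, fun he => ?_⟩, by
    simp only [SimpleGraph.Walk.length_cons, hl]⟩
  rw [Sym2.eq_swap] at he
  have := hqp.length_eq_one_of_mem_edges he
  omega

theorem cycles (hG : ∀ v, ∃ w, G.Adj v w) {S : Finset V} {s b : V} {L d : ℕ} (hs : s ∈ S)
    (hb : b ∉ S) (hsb : G.Adj s b) (h1 : S.card ≤ L) (h2 : d ≤ S.card)
    (h3 : 8 * Fintype.card V + 4 < 2 ^ d)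
    (hS : ∀ p, (nb G p).card ≤ L → ∀ s ∈ S, ∀ s' ∈ S, s ∈ nb G p → s' ∈ nb G p → s = s')
    {l : ℕ} (l1 : 3 ≤ l)
    (l2 : l ≤ ((good G S b L d).biUnion fun W => Icc (W ∪ (S \ Zs G S W)) (W ∪ S)).card) :
    ∃ D, ∃ c : (tars G).Walk D D, c.IsCycle ∧ c.length = l := by
  have hu : Sᶜ ∪ S = univ := by rw [union_comm, union_compl]
  have hT := tree hG hb h1 h2 h3
  obtain ⟨p, p1, p2, p3⟩ := hT.paths (a := univ) (s := s)
    (mem_Icc.2 ⟨subset_univ _, hu.ge⟩) (by
      show s ∈ (Sᶜ ∪ S) \ (Sᶜ ∪ (S \ Zs G S Sᶜ))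
      rw [Zs_dim disjoint_compl_left, Zs, hu]
      exact mem_filter.2 ⟨hs, dom_erase hG s⟩) (gam G) gam_fl (j := l / 2) (by omega) (by omega)
  have hd : ∀ y ∈ p.support, Dominating G y := fun y hy => by
    obtain ⟨W, w1, w2⟩ := mem_biUnion.1 (p3 y hy)
    exact piece_dom hS w1 w2
  by_cases e : l % 2 = 0
  · obtain ⟨D, c, c1, c2⟩ := close p p1 (by omega) hd (gam_fl _ s).symm
    exact ⟨D, c, c1, by omega⟩
  · have a1 : (gam G).Adj (univ.erase b) univ := by
      rw [← fl_erase (mem_univ b)]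
      exact (gam_fl _ b).symm
    have a2 : (gam G).Adj (fl s univ) (univ.erase b) := by
      rw [fl_erase (mem_univ s)]
      exact gam_slide hsb
    obtain ⟨D, c, c1, c2⟩ := close (.cons a1 p) (by
      rw [SimpleGraph.Walk.cons_isPath_iff]
      refine ⟨p1, fun hm => ?_⟩
      obtain ⟨W, w1, w2⟩ := mem_biUnion.1 (p3 _ hm)
      obtain ⟨-, w3, -, -, -, w4⟩ := mem_filter.1 w1
      refine w4 ((trace w3 w2).symm.trans ?_)
      ext v
      simp only [mem_sdiff, mem_erase, mem_univ, and_true, mem_compl])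
      (by rw [SimpleGraph.Walk.length_cons]; omega) (fun y hy => by
        rw [SimpleGraph.Walk.support_cons, List.mem_cons] at hy
        rcases hy with rfl | hy
        · exact dom_erase hG b
        · exact hd y hy) a2
    rw [SimpleGraph.Walk.length_cons] at c2
    exact ⟨D, c, c1, by omega⟩

theorem core (hG : ∀ v, ∃ w, G.Adj v w) {d : ℕ} (hd : 1 ≤ d)
    (h1 : 10 ^ 9 * d ^ 3 ≤ Fintype.card V) (h2 : 8 * Fintype.card V + 4 < 2 ^ d) {l : ℕ}
    (l1 : 3 ≤ l) (l2 : l * 2 ^ d + 4 * Nat.card {D : Finset V // Dominating G D} ≤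
      Nat.card {D : Finset V // Dominating G D} * 2 ^ d) :
    ∃ D, ∃ c : (tars G).Walk D D, c.IsCycle ∧ c.length = l := by
  obtain ⟨F, hF⟩ : ∃ F : Finset (Finset V), F = univ.filter fun D => Dominating G D := ⟨_, rfl⟩
  have mF : ∀ D, D ∈ F ↔ Dominating G D := fun D => by simp [hF]
  have hN : Nat.card {D : Finset V // Dominating G D} = F.card := by
    rw [Nat.card_eq_fintype_card, Fintype.card_subtype, hF]
  rw [hN] at l2
  have d3 : d ≤ d ^ 3 := Nat.le_self_pow (by norm_num) d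
  obtain ⟨S, s1, -, s3, s4⟩ := select (univ.filter fun p => (nb G p).card ≤ 36 * d) (nb G) (36 * d)
    (34 * d) (by omega) (fun p hp => (mem_filter.1 hp).2)
    (F.filter fun D => Fintype.card V ≤ 10 * Dᶜ.card) (fun D hD => (mem_filter.1 hD).2)
    (by nlinarith) (34 * d) le_rfl
  have hS : ∀ p, (nb G p).card ≤ 36 * d → ∀ s ∈ S, ∀ s' ∈ S, s ∈ nb G p → s' ∈ nb G p → s = s' :=
    fun p hp => s3 p (mem_filter.2 ⟨mem_univ _, hp⟩)
  obtain ⟨s, hs⟩ : S.Nonempty := card_pos.1 (by omega)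
  obtain ⟨b, hb, hsb⟩ : ∃ b, b ∉ S ∧ G.Adj s b := by
    by_cases e : (nb G s).card ≤ 36 * d
    · obtain ⟨w, hw⟩ := hG s
      exact ⟨w, fun hm => hw.ne (hS s e s hs w hm (by simp [nb]) (by simp [nb, hw])), hw⟩
    · obtain ⟨u, u1, u2⟩ := exists_mem_notMem_of_card_lt_card (s := S) (t := nb G s) (by omega)
      simp only [nb, mem_filter, mem_univ, true_and] at u1
      exact ⟨u, u2, u1.resolve_left fun e' => u2 (e' ▸ hs)⟩
  refine cycles (d := d) hG hs hb hsb (by omega) (by omega) h2 hS l1 ?_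
  obtain ⟨D0, o1, o2⟩ := ore hG
  have o3 : 2 ^ D0ᶜ.card ≤ F.card := by
    rw [compl_eq_univ_sdiff, ← card_cube (subset_univ D0)]
    exact card_le_card fun D hD => (mF D).2 (dom_up o1 (mem_Icc.1 hD).1)
  let Ba : Finset (Finset V) := (univ.filter fun p => 36 * d < (nb G p).card).biUnion
    fun p => F.filter fun D => Disjoint D (nb G p \ S)
  let Bb : Finset (Finset V) := univ.filter fun D => 10 * Dᶜ.card < Fintype.card V
  let Bc : Finset (Finset V) :=
    (F.filter fun D => Fintype.card V ≤ 10 * Dᶜ.card).filter fun D => (S \ D).card < d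
  let Bd : Finset (Finset V) := S.powerset.image fun U => Sᶜ.erase b ∪ U
  have ba : Ba.card * 2 ^ d ≤ F.card := by
    have e1 : Ba.card * 2 ^ (2 * d) ≤ Fintype.card V * F.card := by
      refine (Nat.mul_le_mul_right _ card_biUnion_le).trans ?_
      rw [sum_mul]
      refine (sum_le_card_nsmul _ _ F.card fun p hp => ?_).trans ?_
      · refine le_trans (Nat.mul_le_mul_left _ (Nat.pow_le_pow_right (by norm_num) ?_))
          (avoid F (nb G p \ S) fun D hD U _ => (mF _).2 (dom_up ((mF D).1 hD) subset_union_left))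
        have := (mem_filter.1 hp).2
        have := le_card_sdiff S (nb G p)
        omega
      · rw [smul_eq_mul]
        exact Nat.mul_le_mul_right _ (card_le_univ _)
    have e2 : Fintype.card V * F.card ≤ 2 ^ d * F.card := Nat.mul_le_mul_right _ (by omega)
    rw [two_mul, pow_add, ← mul_assoc, mul_comm] at e1
    exact Nat.le_of_mul_le_mul_left (e1.trans e2) (by positivity)
  have bb : Bb.card * 2 ^ d ≤ F.card := (small d _ o2 (by omega)).trans o3
  have bc : Bc.card * 2 ^ d ≤ F.card := by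
    have e1 : (Bc.card : ℝ) * (1 / 2) ^ d ≤ (1 / 4) ^ d * F.card := by
      rw [← nsmul_eq_mul]
      refine (card_nsmul_le_sum _ (fun D : Finset V => (1 / 2 : ℝ) ^ (S \ D).card) _
        fun D hD => ?_).trans ((sum_le_sum_of_subset_of_nonneg (filter_subset _ _)
          fun _ _ _ => by positivity).trans (s4.trans ?_))
      · exact pow_le_pow_of_le_one (by norm_num) (by norm_num) (mem_filter.1 hD).2.le
      · rw [pow_mul]
        gcongr
        · norm_num
        · exact filter_subset _ _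
    have e2 : (1 / 2 : ℝ) ^ d * 4 ^ d = 2 ^ d := by rw [← mul_pow]; norm_num
    have e3 : (1 / 4 : ℝ) ^ d * 4 ^ d = 1 := by rw [← mul_pow]; norm_num
    have : (Bc.card : ℝ) * 2 ^ d ≤ F.card := by
      calc (Bc.card : ℝ) * 2 ^ d = Bc.card * (1 / 2) ^ d * 4 ^ d := by rw [mul_assoc, e2]
        _ ≤ (1 / 4) ^ d * F.card * 4 ^ d := mul_le_mul_of_nonneg_right e1 (by positivity)
        _ = F.card := by rw [mul_right_comm, e3, one_mul]
    exact_mod_cast this
  have bd : Bd.card * 2 ^ d ≤ F.card := by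
    have e1 : Bd.card ≤ 2 ^ (34 * d) := card_image_le.trans (by rw [card_powerset, s1])
    refine (Nat.mul_le_mul_right _ e1).trans (le_trans ?_ o3)
    rw [← pow_add]
    exact Nat.pow_le_pow_right (by norm_num) (by omega)
  obtain ⟨C, hC⟩ : ∃ C, C = (good G S b (36 * d) d).biUnion
    fun W => Icc (W ∪ (S \ Zs G S W)) (W ∪ S) := ⟨_, rfl⟩
  rw [← hC]
  have cov : F ⊆ C ∪ (Ba ∪ (Bb ∪ (Bc ∪ Bd))) := fun D hD => by
    by_contra hno
    simp only [mem_union, not_or] at hno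
    obtain ⟨c1, c2, c3, c4, c5⟩ := hno
    refine c1 (hC ▸ covered ((mF D).1 hD) (fun p hp e => c2 ?_) ?_ fun e => c5 ?_)
    · exact mem_biUnion.2 ⟨p, mem_filter.2 ⟨mem_univ _, hp⟩, mem_filter.2 ⟨hD, e⟩⟩
    · by_contra e
      refine c4 (mem_filter.2 ⟨mem_filter.2 ⟨hD, ?_⟩, not_le.1 e⟩)
      by_contra e'
      exact c3 (mem_filter.2 ⟨mem_univ _, not_le.1 e'⟩)
    · exact mem_image.2 ⟨D ∩ S, mem_powerset.2 inter_subset_right, by rw [← e, sdiff_union_inter]⟩
  have c1 := (card_le_card cov).trans (card_union_le _ _)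
  have c2 := card_union_le Ba (Bb ∪ (Bc ∪ Bd))
  have c3 := card_union_le Bb (Bc ∪ Bd)
  have c4 := card_union_le Bc Bd
  have c5 : F.card * 2 ^ d ≤ (C.card + Ba.card + Bb.card + Bc.card + Bd.card) * 2 ^ d :=
    Nat.mul_le_mul_right _ (by omega)
  have c6 : l * 2 ^ d ≤ C.card * 2 ^ d := by nlinarith
  exact Nat.le_of_mul_le_mul_right c6 (by positivity)

end

end Pool.Agent.MP_e46b50_co.H59

end

section
namespace Pool.Agent.MP_e46b50_co.H59

open Finset
open scoped Classical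

section
variable {V : Type} [Fintype V] [DecidableEq V] (G : SimpleGraph V)

/-- add all isolated vertices. -/
noncomputable def ext (X : Finset G.support) : Finset V :=
  univ.filter fun v => ∀ h : v ∈ G.support, (⟨v, h⟩ : G.support) ∈ X

variable {G}

theorem mem_ext {X : Finset G.support} {v : V} :
    v ∈ ext G X ↔ ∀ h : v ∈ G.support, (⟨v, h⟩ : G.support) ∈ X := by
  simp only [ext, mem_filter, mem_univ, true_and]

theorem coe_mem_ext {X : Finset G.support} {v : G.support} : v.1 ∈ ext G X ↔ v ∈ X :=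
  mem_ext.trans ⟨fun h => h v.2, fun h _ => h⟩

theorem ext_dom {X : Finset G.support} (h : Dominating (G.induce G.support) X) :
    Dominating G (ext G X) := fun v hv => by
  rw [mem_ext, not_forall] at hv
  obtain ⟨h1, h2⟩ := hv
  obtain ⟨u, u1, u2⟩ := h _ h2
  exact ⟨u.1, coe_mem_ext.2 u1, u2⟩

theorem ext_inj {X Y : Finset G.support} (h : ext G X = ext G Y) : X = Y := by
  ext v
  rw [← coe_mem_ext, ← coe_mem_ext, h]

theorem ext_rel {X Y : Finset G.support} (h : (symmDiff X Y).card = 1 ∨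
    ∃ u ∈ X, ∃ v ∈ Y \ X, (G.induce G.support).Adj u v ∧ Y = (insert v X).erase u) :
    (symmDiff (ext G X) (ext G Y)).card = 1 ∨
    ∃ u ∈ ext G X, ∃ v ∈ ext G Y \ ext G X, G.Adj u v ∧
      ext G Y = (insert v (ext G X)).erase u := by
  rcases h with h | ⟨u, u1, v, v1, h1, h2⟩
  · left
    rw [← h, ← card_map (Function.Embedding.subtype _)]
    congr 1
    ext v
    by_cases e : v ∈ G.support
    · have e1 := coe_mem_ext (X := X) (v := ⟨v, e⟩)
      have e2 := coe_mem_ext (X := Y) (v := ⟨v, e⟩)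
      have e3 := mem_map' (Function.Embedding.subtype fun v => v ∈ G.support) (a := ⟨v, e⟩)
        (s := symmDiff X Y)
      refine Iff.trans ?_ e3.symm
      rw [mem_symmDiff, mem_symmDiff, ← e1, ← e2]
    · have e1 : v ∈ ext G X := mem_ext.2 fun h => absurd h e
      have e2 : v ∈ ext G Y := mem_ext.2 fun h => absurd h e
      refine iff_of_false (by simp [mem_symmDiff, e1, e2]) fun hm => ?_
      obtain ⟨w, -, rfl⟩ := mem_map.1 hm
      exact e w.2
  · right
    refine ⟨u.1, coe_mem_ext.2 u1, v.1, mem_sdiff.2 ⟨coe_mem_ext.2 (mem_sdiff.1 v1).1,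
      fun hm => (mem_sdiff.1 v1).2 (coe_mem_ext.1 hm)⟩, h1, ?_⟩
    ext w
    rw [mem_erase, mem_insert]
    by_cases e : w ∈ G.support
    · have e1 := coe_mem_ext (X := X) (v := ⟨w, e⟩)
      have e2 := coe_mem_ext (X := Y) (v := ⟨w, e⟩)
      refine e2.trans ?_
      rw [h2, mem_erase, mem_insert, ← e1, Ne, Ne, Subtype.ext_iff, Subtype.ext_iff]
    · exact iff_of_true (mem_ext.2 fun h => absurd h e)
        ⟨fun h => e (h ▸ u.2), Or.inr (mem_ext.2 fun h => absurd h e)⟩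

/-- the embedding of the reconfiguration graphs. -/
noncomputable def extHom : tars (G.induce G.support) →g tars G where
  toFun X := ⟨ext G X.1, ext_dom X.2⟩
  map_rel' := fun {X Y} h =>
    ⟨fun e => h.1 (Subtype.ext (ext_inj (congrArg Subtype.val e))), h.2.imp ext_rel ext_rel⟩

theorem card_le_induce : Nat.card {D : Finset V // Dominating G D} ≤
    Nat.card {D : Finset G.support // Dominating (G.induce G.support) D} := by
  refine Nat.card_le_card_of_surjective (extHom (G := G)) fun D => ?_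
  refine ⟨⟨D.1.subtype _, fun v hv => ?_⟩, Subtype.ext ?_⟩
  · obtain ⟨u, u1, u2⟩ := D.2 v.1 fun hm => hv (mem_subtype.2 hm)
    exact ⟨⟨u, v.1, u2.symm⟩, mem_subtype.2 u1, u2⟩
  · ext v
    refine mem_ext.trans ⟨fun h => ?_, fun h _ => mem_subtype.2 h⟩
    by_contra e
    obtain ⟨u, -, u2⟩ := D.2 v e
    exact e (mem_subtype.1 (h ⟨u, u2⟩))

theorem core' {d : ℕ} (hd : 1 ≤ d) (h1 : 10 ^ 9 * d ^ 3 ≤ G.support.ncard)
    (h2 : 8 * G.support.ncard + 4 < 2 ^ d) {l : ℕ} (l1 : 3 ≤ l)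
    (l2 : l * 2 ^ d + 4 * Nat.card {D : Finset V // Dominating G D} ≤
      Nat.card {D : Finset V // Dominating G D} * 2 ^ d) :
    ∃ D, ∃ c : (tars G).Walk D D, c.IsCycle ∧ c.length = l := by
  have hn : Fintype.card G.support = G.support.ncard := by
    rw [← Nat.card_eq_fintype_card, Nat.card_coe_set_eq]
  obtain ⟨D, c, c1, c2⟩ := core (G := G.induce G.support)
    (fun v => let ⟨w, hw⟩ := v.2; ⟨⟨w, v.1, hw.symm⟩, hw⟩) hd (hn ▸ h1) (hn ▸ h2) l1 (by
      obtain ⟨e, he⟩ := Nat.exists_eq_add_of_le (card_le_induce (G := G))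
      rw [he]
      have : e * 4 ≤ e * 2 ^ d := Nat.mul_le_mul_left _ (by omega)
      nlinarith)
  exact ⟨_, c.map extHom, c1.map fun X Y e => Subtype.ext (ext_inj (congrArg Subtype.val e)),
    by rw [SimpleGraph.Walk.length_map, c2]⟩

end

theorem num1 (d : ℕ) (hd : 60 ≤ d) : 10 ^ 10 * (d + 1) ^ 3 ≤ 2 ^ d := by
  induction d, hd using Nat.le_induction with
  | base => norm_num
  | succ d hd ih =>
    have : (d + 1 + 1) ^ 3 ≤ 2 * (d + 1) ^ 3 := by nlinarith [Nat.mul_le_mul hd (le_refl (d * d))]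
    rw [pow_succ 2 d]
    omega

theorem num2 (d : ℕ) (hd : 60 ≤ d) : 4 * (1.65 : ℝ) ^ (d + 1) ≤ 2 ^ d := by
  induction d, hd using Nat.le_induction with
  | base => norm_num
  | succ d hd ih =>
    rw [pow_succ _ (d + 1), pow_succ 2 d]
    have : (0 : ℝ) < 1.65 ^ (d + 1) := by positivity
    nlinarith

theorem choose_d (n : ℕ) (hn : 10 ^ 9 * 60 ^ 3 ≤ n) : ∃ d : ℕ, 1 ≤ d ∧ 10 ^ 9 * d ^ 3 ≤ n ∧
    8 * n + 4 < 2 ^ d ∧ 4 ≤ Real.exp (-(1 / 2000 * (n : ℝ) ^ (1 / 3 : ℝ))) * 2 ^ d := by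
  obtain ⟨x, hx⟩ : ∃ x : ℝ, x = (n : ℝ) ^ (1 / 3 : ℝ) := ⟨_, rfl⟩
  have x0 : 0 ≤ x := hx ▸ Real.rpow_nonneg (Nat.cast_nonneg n) _
  have x3 : x ^ 3 = n := by
    rw [hx, ← Real.rpow_natCast, ← Real.rpow_mul (Nat.cast_nonneg n)]
    norm_num
  rw [← hx]
  obtain ⟨d, hd⟩ : ∃ d : ℕ, d = ⌊x / 1000⌋₊ := ⟨_, rfl⟩
  have d1 : (d : ℝ) ≤ x / 1000 := hd ▸ Nat.floor_le (by positivity)
  have d2 : x / 1000 < d + 1 := hd ▸ Nat.lt_floor_add_one _
  have e1 : 10 ^ 9 * d ^ 3 ≤ n := by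
    have : ((1000 * d : ℝ)) ^ 3 ≤ x ^ 3 := by gcongr; linarith
    have : (10 ^ 9 * d ^ 3 : ℝ) ≤ n := by rw [← x3]; linarith
    exact_mod_cast this
  have e2 : n < 10 ^ 9 * (d + 1) ^ 3 := by
    have : x ^ 3 < ((1000 * (d + 1) : ℝ)) ^ 3 := by gcongr; linarith
    have : (n : ℝ) < 10 ^ 9 * (d + 1) ^ 3 := by rw [← x3]; linarith
    exact_mod_cast this
  have e3 : 60 ≤ d := by
    by_contra e
    have : (d + 1) ^ 3 ≤ 60 ^ 3 := Nat.pow_le_pow_left (by omega) 3
    omega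
  have e4 := num1 d e3
  have e5 : 1 ≤ (d + 1) ^ 3 := Nat.one_le_pow _ _ (by omega)
  refine ⟨d, by omega, e1, by omega, ?_⟩
  have e6 : Real.exp (1 / 2) ≤ 1.65 := by
    have h1 : Real.exp (1 / 2) * Real.exp (1 / 2) = Real.exp 1 := by
      rw [← Real.exp_add]; norm_num
    have h2 := Real.exp_one_lt_d9
    have h3 := Real.exp_pos (1 / 2)
    nlinarith
  have e7 : Real.exp (1 / 2000 * x) ≤ 1.65 ^ (d + 1) := by
    calc Real.exp (1 / 2000 * x) ≤ Real.exp (((d + 1 : ℕ) : ℝ) * (1 / 2)) :=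
          Real.exp_le_exp.2 (by push_cast; linarith)
      _ = Real.exp (1 / 2) ^ (d + 1) := Real.exp_nat_mul _ _
      _ ≤ _ := by gcongr
  have e8 := num2 d e3
  rw [Real.exp_neg, inv_mul_eq_div, le_div_iff₀ (Real.exp_pos _)]
  linarith

end Pool.Agent.MP_e46b50_co.H59

end
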