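import Mathlib

set_option autoImplicit false

namespace Pool.Agent.MP_e46b50_co

/-- `D` is a dominating set of `G`. -/
def Dominating {V : Type} (G : SimpleGraph V) (D : Finset V) : Prop :=
  ∀ v, v ∉ D → ∃ u ∈ D, G.Adj v u

/-- The TARS-graph: dominating sets, adjacent when they differ by adding or removing one vertex,
or by sliding one token along an edge. -/
def tars {V : Type} [DecidableEq V] (G : SimpleGraph V) :
    SimpleGraph {D : Finset V // Dominating G D} :=
  SimpleGraph.fromRel fun X Y => (symmDiff X.1 Y.1).card = 1 ∨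
    ∃ u ∈ X.1, ∃ v ∈ Y.1 \ X.1, G.Adj u v ∧ Y.1 = (insert v X.1).erase u

end Pool.Agent.MP_e46b50_co
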